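import Mathlib
import Pool.Agent.Y16.Gluon.Def

/-!
# The Schrödinger functional of lattice Yang-Mills theory

The lattice `{0, …, L} × (ℤ/L)³`, periodic in the three directions of space, with fixed spatial link
variables at the times `0` and `L`: they are `1` at the time `0`, and at the time `L` they are
`exp (ε T / L)` in the first direction of space and `1` in the other two directions. The boundary
values are those of the constant chromoelectric field of strength `ε T / L ^ 2`.
-/

open MeasureTheory Matrix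
open scoped Matrix.Norms.Frobenius Topology
open Pool.Agent.Y16.Gluon

namespace Pool.Agent.Y16.AF

set_option linter.unusedSectionVars false

noncomputable section

/-- Points of space, `(ℤ/L)³`. -/
abbrev Sp (L : ℕ) := Fin 3 → ZMod L

/-- The links over a point of space: the time link from `t` to `t + 1`, `0 ≤ t < L`, and the spatial
links at the times `s + 1`, `s + 1 < L`, in the three directions. -/
abbrev AL (L : ℕ) := Fin L ⊕ (Fin (L - 1) × Fin 3)

/-- The dynamical links: all links except the spatial links at the times `0` and `L`. -/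
abbrev Links (L : ℕ) := Sp L × AL L

section full

variable {N L : ℕ} {G : Subgroup (UU N)}

/-- The variable of the link from `(t, x)` to `(t + 1, x)`. -/
def tv (U : Links L → G) (t : ℕ) (x : Sp L) : G := if h : t < L then U (x, .inl ⟨t, h⟩) else 1

/-- The variable of the link from `(t, x)` to `(t, x + e_j)`; at the times `0` and `L` it is the
boundary value. -/
def sv (e : ℝ → G) (ε : ℝ) (U : Links L → G) (t : ℕ) (x : Sp L) (j : Fin 3) : G :=
  if h : 0 < t ∧ t < L then U (x, .inr (⟨t - 1, by omega⟩, j))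
  else if t = L ∧ j = 0 then e (ε / L) else 1

/-- The plaquette at `(t, x)` in the direction of time and the direction `j` of space. -/
def tplaq (e : ℝ → G) (ε : ℝ) (U : Links L → G) (t : ℕ) (x : Sp L) (j : Fin 3) : G :=
  tv U t x * sv e ε U (t + 1) x j * (tv U t (x + Pi.single j 1))⁻¹ * (sv e ε U t x j)⁻¹

/-- The plaquette at `(t, x)` in the directions `i`, `j` of space. -/
def splaq (e : ℝ → G) (ε : ℝ) (U : Links L → G) (t : ℕ) (x : Sp L) (i j : Fin 3) : G :=
  sv e ε U t x i * sv e ε U t (x + Pi.single i 1) j * (sv e ε U t (x + Pi.single j 1) i)⁻¹ *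
    (sv e ε U t x j)⁻¹

/-- The Wilson action: the sum of `Re tr (1 - U_p)` over all plaquettes. -/
def action [NeZero L] (e : ℝ → G) (ε : ℝ) (U : Links L → G) : ℝ :=
  ∑ x : Sp L, ((∑ t ∈ Finset.range L, ∑ j, (trace (1 - mt (tplaq e ε U t x j))).re) +
    ∑ t ∈ Finset.range (L + 1), ∑ i, ∑ j,
      if i < j then (trace (1 - mt (splaq e ε U t x i j))).re else 0)

/-- The Schrödinger functional, the partition function with the given boundary values. -/
def Z [MeasurableSpace G] (μ : Measure G) (e : ℝ → G) (L : ℕ) [NeZero L] (β ε : ℝ) : ℝ :=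
  ∫ U : Links L → G, Real.exp (-(β * action e ε U)) ∂(Measure.pi fun _ => μ)

/-- The inverse of the running coupling at the scale `L`: the second derivative of the free energy
`- log Z` with respect to the boundary field. -/
def invCoupling [MeasurableSpace G] (μ : Measure G) (e : ℝ → G) (L : ℕ) [NeZero L] (β : ℝ) : ℝ :=
  iteratedDeriv 2 (fun ε => -Real.log (Z μ e L β ε)) 0

end full

/-! ### The plaquettes and their legs -/

section legs

variable {L : ℕ}

/-- The plaquettes: point of space, time, and the plane: `inl j` is the plane of time and the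
direction `j`; `inr 0`, `inr 1`, `inr 2` are the planes `(0,1)`, `(0,2)`, `(1,2)` of space. -/
abbrev Pq (L : ℕ) := Sp L × Fin L × (Fin 3 ⊕ Fin 3)

/-- First direction of a plane of space. -/
def pi1 : Fin 3 → Fin 3 := ![0, 0, 1]

/-- Second direction of a plane of space. -/
def pi2 : Fin 3 → Fin 3 := ![1, 2, 2]

def vT (L t : ℕ) : Option (AL L) := if h : t < L then some (.inl ⟨t, h⟩) else none

def vS (L t : ℕ) (j : Fin 3) : Option (AL L) :=
  if h : 0 < t ∧ t < L then some (.inr (⟨t - 1, by omega⟩, j)) else none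

/-- The links of the four legs of a plaquette, `none` for a link of the boundary. -/
def lv (t : Fin L) : Fin 3 ⊕ Fin 3 → Fin 4 → Option (AL L)
  | .inl j => ![vT L t, vS L t j, vT L t, vS L (t + 1) j]
  | .inr m => ![vS L t (pi2 m), vS L t (pi1 m), vS L t (pi2 m), vS L t (pi1 m)]

/-- The orientations of the legs, `true` for positive. -/
def sb : Fin 3 ⊕ Fin 3 → Fin 4 → Bool
  | .inl _ => ![false, false, true, true]
  | .inr _ => ![true, false, false, true]

def sg (κ : Fin 3 ⊕ Fin 3) (i : Fin 4) : ℝ := if sb κ i then 1 else -1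

/-- The positions of the legs relative to the base point. -/
def ls : Fin 3 ⊕ Fin 3 → Fin 4 → Sp L
  | .inl j => ![Pi.single j 1, 0, 0, 0]
  | .inr m => ![Pi.single (pi1 m) 1, Pi.single (pi2 m) 1, 0, 0]

/-- The field strength in the plaquette is `al κ * ε`. -/
def al (L : ℕ) (κ : Fin 3 ⊕ Fin 3) : ℝ := if κ = .inl 0 then 1 / (L : ℝ) ^ 2 else 0

/-- The first leg is transported by the background `exp (ta t κ * ε * T)`. -/
def ta (t : Fin L) : Fin 3 ⊕ Fin 3 → ℝ
  | .inl j => if j = 0 then (t : ℝ) / (L : ℝ) ^ 2 else 0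
  | .inr m => if m = 2 then 0 else (t : ℝ) / (L : ℝ) ^ 2

/-- Signed incidence of the leg `i` of the plaquette `p` and the link `w`. -/
def inc (p : Pq L) (i : Fin 4) (w : Links L) : ℝ :=
  if lv p.2.1 p.2.2 i = some w.2 ∧ p.1 + ls p.2.2 i = w.1 then sg p.2.2 i else 0

/-- The links which are not fixed by the gauge: all spatial links, and the time links from `L - 1` to
`L` over the points `x ≠ 0`. -/
def dyn (w : Links L) : Prop := ∀ t, w.2 = .inl t → (t : ℕ) + 1 = L ∧ w.1 ≠ 0

open Classical in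
instance : DecidablePred (dyn (L := L)) := fun _ => Classical.propDecidable _

abbrev Dy (L : ℕ) := {w : Links L // dyn w}

end legs

/-! ### The matrices of the quadratic forms -/

section mats

variable {L : ℕ} [NeZero L]

/-- The Hessian of the action (one colour component). -/
def Hm (w w' : Links L) : ℝ := ∑ p : Pq L, ∑ i, ∑ j, inc p i w * inc p j w'

/-- Coefficients of the first derivative. -/
def qc (α τ : ℝ) (i j : Fin 4) : ℝ :=
  (if i < j then -(α / 2) else if j < i then α / 2 else 0) +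
    τ * ((if j = 0 then 1 else 0) - (if i = 0 then 1 else 0))

/-- Coefficients of the second derivative. -/
def rc (α τ : ℝ) (i j : Fin 4) : ℝ :=
  -(α ^ 2 / 4) - (α * τ + τ ^ 2) * (if (i = 0) ≠ (j = 0) then 1 else 0)

def Qm (w w' : Links L) : ℝ :=
  ∑ p : Pq L, ∑ i, ∑ j, inc p i w * inc p j w' * qc (al L p.2.2) (ta p.2.1 p.2.2) i j

def Rm (w w' : Links L) : ℝ :=
  ∑ p : Pq L, ∑ i, ∑ j, inc p i w * inc p j w' * rc (al L p.2.2) (ta p.2.1 p.2.2) i j

/-- The part of the Hessian from the plaquettes in the plane of the background field. -/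
def H01 (w w' : Links L) : ℝ :=
  ∑ p : Pq L, ∑ i, ∑ j, if p.2.2 = .inl 0 then inc p i w * inc p j w' else 0

/-- Restriction of a matrix to the links which are not fixed by the gauge. -/
def rs {R : Type*} (M : Links L → Links L → R) : Matrix (Dy L) (Dy L) R :=
  Matrix.of fun w w' => M w.1 w'.1

/-! ### The charged field of charge one in the background field -/

/-- Weights of a plaquette with field strength `f`. -/
def ww (f : ℝ) (i j : Fin 4) : ℂ :=
  if i = j then (Real.cos (f / 2) : ℂ)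
  else if i < j then Complex.exp (-(Complex.I * (f / 2))) else Complex.exp (Complex.I * (f / 2))

/-- The transport of the first leg. -/
def cc (θ : ℝ) (i : Fin 4) : ℂ := if i = 0 then Complex.exp (Complex.I * θ) else 1

/-- The weight `ww` with the transports. -/
def om (f θ : ℝ) (i j : Fin 4) : ℂ := ww f i j * (starRingEnd ℂ) (cc θ i) * cc θ j

def hF (ε : ℝ) (w w' : Links L) : ℂ :=
  ∑ p : Pq L, ∑ i, ∑ j,
    (inc p i w : ℂ) * inc p j w' * om (al L p.2.2 * ε) (ta p.2.1 p.2.2 * ε) i j

/-- Incidence over a point of space. -/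
def inl1 (t : Fin L) (κ : Fin 3 ⊕ Fin 3) (i : Fin 4) (a : AL L) : ℂ :=
  if lv t κ i = some a then (sg κ i : ℂ) else 0

/-- The phases of the legs for the Bloch factors `z`. -/
def lz (z : Fin 3 → ℂ) : Fin 3 ⊕ Fin 3 → Fin 4 → ℂ
  | .inl j => ![z j, 1, 1, 1]
  | .inr m => ![z (pi1 m), z (pi2 m), 1, 1]

/-- The symbol of `hF`. -/
def hS (ε : ℝ) (z : Fin 3 → ℂ) (a b : AL L) : ℂ :=
  ∑ t : Fin L, ∑ κ, ∑ i, ∑ j, inl1 t κ i a * inl1 t κ j b *
    om (al L κ * ε) (ta t κ * ε) i j * ((starRingEnd ℂ) (lz z κ i) * lz z κ j)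

/-- The Bloch factors of the momentum `k`. -/
def zk (k : Sp L) : Fin 3 → ℂ := fun j => ZMod.stdAddChar (k j)

/-- The variables of a mode: the last time link and the spatial links. -/
def jJ (L : ℕ) [NeZero L] : Option (Fin (L - 1) × Fin 3) → AL L
  | none => .inl ⟨L - 1, Nat.sub_lt (Nat.pos_of_ne_zero (NeZero.ne L)) one_pos⟩
  | some a => .inr a

/-- The matrix of the charged modes with polarisations in the plane of the background field. -/
def blk (L : ℕ) (ε : ℝ) (z : ℂ) (b : ℝ) : Matrix (Fin L ⊕ Fin (L - 1)) (Fin L ⊕ Fin (L - 1)) ℂ :=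
  let f : ℝ := ε / (L : ℝ) ^ 2
  let w : ℕ → ℂ := fun t => Complex.exp (Complex.I * (ε * t / (L : ℝ) ^ 2)) * z
  let v : ℕ → ℂ := fun t => 1 + Complex.exp (-(Complex.I * (f / 2))) * (starRingEnd ℂ) (w t)
  let r1 : ℂ := 1 - Complex.exp (Complex.I * (f / 2))
  let r2 : ℂ := Complex.exp (-(Complex.I * (f / 2))) - 1
  Matrix.fromBlocks
    (Matrix.of fun s t : Fin L =>
      if s = t then ((Real.cos (f / 2) * (2 - 2 * (w t).re) + 2 * Real.sin (f / 2) * (w t).im + b +
        (if 0 < (t : ℕ) then 1 else 0) + (if (t : ℕ) + 1 < L then 1 else 0) : ℝ) : ℂ)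
      else if (s : ℕ) = t + 1 ∨ (t : ℕ) = s + 1 then -1 else 0)
    (Matrix.of fun (s : Fin L) (t : Fin (L - 1)) =>
      if (s : ℕ) = t + 1 then r1 * v s else if (s : ℕ) = t then r2 * v s else 0)
    (Matrix.of fun (t : Fin (L - 1)) (s : Fin L) =>
      (starRingEnd ℂ) (if (s : ℕ) = t + 1 then r1 * v s else if (s : ℕ) = t then r2 * v s else 0))
    (Matrix.of fun s t : Fin (L - 1) =>
      if s = t then ((2 * Real.cos (f / 2) + b + (2 - 2 * (w (t + 1)).re) : ℝ) : ℂ)
      else if (t : ℕ) = s + 1 then -Complex.exp (-(Complex.I * (f / 2)))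
      else if (s : ℕ) = t + 1 then -Complex.exp (Complex.I * (f / 2)) else 0)

end mats

/-! ### Second logarithmic derivative -/

/-- The second derivative of `log f` at `0`. -/
def ld2 (f : ℝ → ℂ) : ℂ := deriv (deriv f) 0 / f 0 - (deriv f 0 / f 0) ^ 2

/-! ### Green functions on an interval -/

/-- Green function of `-Δ + 2 cosh ω - 2` on `{1, …, L - 1}` with Dirichlet conditions. -/
def GD (L : ℕ) (ω : ℝ) (t s : ℕ) : ℝ :=
  Real.sinh (ω * (min t s : ℕ)) * Real.sinh (ω * (L - (max t s : ℕ))) /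
    (Real.sinh ω * Real.sinh (ω * L))

/-- Green function of `-Δ + 2 cosh ω - 2` on `{0, …, L - 1}` with Neumann conditions. -/
def GN (L : ℕ) (ω : ℝ) (t s : ℕ) : ℝ :=
  Real.cosh (ω * ((min t s : ℕ) + 1 / 2)) * Real.cosh (ω * (L - 1 / 2 - (max t s : ℕ))) /
    (Real.sinh ω * Real.sinh (ω * L))

/-- The contribution of the orbital motion. -/
def FX (L : ℕ) (k ω : ℝ) : ℝ :=
  (∑ t ∈ Finset.range L, GN L ω t t * (2 * Real.cos k * ((t : ℝ) + 1 / 2) ^ 2)) +
    (∑ t ∈ Finset.range L, GD L ω t t * (2 * Real.cos k * (t : ℝ) ^ 2)) -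
    4 * Real.sin k ^ 2 * ((∑ t ∈ Finset.range L, ∑ s ∈ Finset.range L,
      GN L ω t s ^ 2 * (((t : ℝ) + 1 / 2) * ((s : ℝ) + 1 / 2))) +
      ∑ t ∈ Finset.range L, ∑ s ∈ Finset.range L, GD L ω t s ^ 2 * ((t : ℝ) * s))

/-- The contribution of the spin. -/
def FY (L : ℕ) (k ω : ℝ) : ℝ :=
  (1 + Real.cos k) * ∑ t ∈ Finset.range L, ∑ s ∈ Finset.range L,
    GN L ω t s * (GD L ω t s + GD L ω (t + 1) s + GD L ω t (s + 1) + GD L ω (t + 1) (s + 1))

/-- The remaining bounded contributions. -/
def FW (L : ℕ) (ω : ℝ) : ℝ :=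
  -(1 / 2 * ∑ t ∈ Finset.range L, GN L ω t t) -
    1 / 4 * (∑ t ∈ Finset.range (L - 1), (1 - (2 * Real.cosh ω - 2) * GD L ω (t + 1) (t + 1))) -
    1 / 2 * ∑ t ∈ Finset.range (L - 2), ∑ s ∈ Finset.range (L - 2),
      (GD L ω (t + 2) (s + 2) * GD L ω (t + 1) (s + 1) -
        GD L ω (t + 1) (s + 2) * GD L ω (t + 2) (s + 1))

/-- The contribution of a mode to the second derivative of the logarithm of the determinant. -/
def FF (L : ℕ) (k ω : ℝ) : ℝ := (FX L k ω - FY L k ω + FW L ω) / (L : ℝ) ^ 4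


/-! ### Momenta -/

section momenta

variable {L : ℕ}

def ang (k : Sp L) (j : Fin 3) : ℝ := 2 * Real.pi * ((k j).val : ℝ) / L

def wh2 (k : Sp L) : ℝ := ∑ j, (2 - 2 * Real.cos (ang k j))

/-- The energy of the momentum `k`: `2 cosh ω - 2 = wh2 k`. -/
def en (k : Sp L) : ℝ := 2 * Real.arsinh (Real.sqrt (wh2 k) / 2)

end momenta

/-! ### The action in the gauge, its derivatives in the background field -/

section prob

variable {N n L : ℕ} {G : Subgroup (UU N)}

/-- The configuration in the gauge. -/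
def fx (U : Links L → G) : Links L → G := fun w => if dyn w then U w else 1

/-- The group elements of the legs. -/
def lg (U : Links L → G) (p : Pq L) (i : Fin 4) : G :=
  match lv p.2.1 p.2.2 i with
  | none => 1
  | some a => if sb p.2.2 i then U (p.1 + ls p.2.2 i, a) else (U (p.1 + ls p.2.2 i, a))⁻¹

/-- The plaquette in the background field. -/
def bg (e : ℝ → G) (f θ : ℝ) (g : Fin 4 → G) : G :=
  e f * (e θ * g 0 * (e θ)⁻¹) * g 1 * g 2 * g 3

/-- The action of the fluctuations in the background field. -/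
def Sg [NeZero L] (e : ℝ → G) (ε : ℝ) (U : Links L → G) : ℝ :=
  ∑ p : Pq L, (trace (1 - mt (bg e (al L p.2.2 * ε) (ta p.2.1 p.2.2 * ε) (lg (fx U) p)))).re

/-- The action without background field. -/
def S0 [NeZero L] (U : Links L → G) : ℝ :=
  ∑ p : Pq L, (trace (1 - mt (lg (fx U) p 0 * lg (fx U) p 1 * lg (fx U) p 2 * lg (fx U) p 3))).re

/-- First derivative of a plaquette term in the background field. -/
def D1 (T : Mt N) (α τ : ℝ) (g : Fin 4 → G) : ℝ :=
  -(α * (trace (T * (mt (g 0) * mt (g 1) * mt (g 2) * mt (g 3)))).re +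
    τ * (trace ((T * mt (g 0) - mt (g 0) * T) * (mt (g 1) * mt (g 2) * mt (g 3)))).re)

/-- Second derivative of a plaquette term in the background field. -/
def D2 (T : Mt N) (α τ : ℝ) (g : Fin 4 → G) : ℝ :=
  -(α ^ 2 * (trace (T * T * (mt (g 0) * mt (g 1) * mt (g 2) * mt (g 3)))).re +
    2 * (α * τ) * (trace (T * (T * mt (g 0) - mt (g 0) * T) *
      (mt (g 1) * mt (g 2) * mt (g 3)))).re +
    τ ^ 2 * (trace ((T * (T * mt (g 0) - mt (g 0) * T) - (T * mt (g 0) - mt (g 0) * T) * T) *
      (mt (g 1) * mt (g 2) * mt (g 3)))).re)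

def S1 [NeZero L] (T : Mt N) (U : Links L → G) : ℝ :=
  ∑ p : Pq L, D1 T (al L p.2.2) (ta p.2.1 p.2.2) (lg (fx U) p)

def S2 [NeZero L] (T : Mt N) (U : Links L → G) : ℝ :=
  ∑ p : Pq L, D2 T (al L p.2.2) (ta p.2.1 p.2.2) (lg (fx U) p)

/-- Expectation in the theory without background field. -/
def EX [NeZero L] [MeasurableSpace G] (μ : Measure G) (β : ℝ) (F : (Links L → G) → ℝ) : ℝ :=
  (∫ U : Links L → G, F U * Real.exp (-(β * S0 U)) ∂(Measure.pi fun _ => μ)) /
    ∫ U : Links L → G, Real.exp (-(β * S0 U)) ∂(Measure.pi fun _ => μ)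

/-- Coordinates. -/
def co (B : LieBasis G n) (g : G) (a : Fin n) : ℝ := (trace ((B.X a)ᴴ * mt g)).re

/-- Coordinates of a configuration. -/
def cA (B : LieBasis G n) (U : Links L → G) (i : Dy L × Fin n) : ℝ := co B (U i.1.1) i.2

/-- Derivatives of the coordinates. -/
def dA (B : LieBasis G n) (U : Links L → G) (i j : Dy L × Fin n) : ℝ :=
  if i.1 = j.1 then (trace ((B.X j.2)ᴴ * (B.X i.2 * mt (U i.1.1)))).re else 0

/-- The adjoint action of `T`. -/
def Jm (B : LieBasis G n) (T : Mt N) : Matrix (Fin n) (Fin n) ℝ :=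
  Matrix.of fun a b => (trace ((B.X a)ᴴ * (T * B.X b - B.X b * T))).re

/-- `-tr (ad T)²`. -/
def kap (B : LieBasis G n) (T : Mt N) : ℝ := ∑ a, ‖T * B.X a - B.X a * T‖ ^ 2

/-- The size of a configuration. -/
def rr [NeZero L] (U : Links L → G) : ℝ := ∑ w : Dy L, ‖mt (U w.1) - 1‖

/-- Derivative of the leg `i` of the plaquette `p` in the direction `X_a` of its link. -/
def dl (B : LieBasis G n) (U : Links L → G) (p : Pq L) (i : Fin 4) (a : Fin n) : Mt N :=
  if sb p.2.2 i then B.X a * mt (lg (fx U) p i) else -(mt (lg (fx U) p i) * B.X a)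

/-- Derivative of the action `S0` in the direction `U_w → exp (t X_a) U_w`. -/
def GS [NeZero L] (B : LieBasis G n) (U : Links L → G) (i : Dy L × Fin n) : ℝ :=
  ∑ p : Pq L, ∑ l : Fin 4,
    if lv p.2.1 p.2.2 l = some i.1.1.2 ∧ p.1 + ls p.2.2 l = i.1.1.1 then
      -(trace ((if l = 0 then dl B U p 0 i.2 else mt (lg (fx U) p 0)) *
        (if l = 1 then dl B U p 1 i.2 else mt (lg (fx U) p 1)) *
        (if l = 2 then dl B U p 2 i.2 else mt (lg (fx U) p 2)) *
        (if l = 3 then dl B U p 3 i.2 else mt (lg (fx U) p 3)))).re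
    else 0

/-- The colour matrix of the correction to the Hessian. -/
def eM (B : LieBasis G n) (T : Mt N) : Matrix (Fin n) (Fin n) ℝ :=
  Matrix.of fun a b => -(1 / 2) * (trace (T * T * (B.X a * B.X b + B.X b * B.X a))).re -
    1 / 4 * (Jm B T * Jm B T) a b

end prob

end

end Pool.Agent.Y16.AF
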