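import Mathlib
import Pool.Agent.Y16.AF.Defs

/-! Statements for project AF: algebra (never import this file in a proof; copy the statement). -/

open MeasureTheory Matrix
open scoped Matrix.Norms.Frobenius Topology

namespace Pool.Agent.Y16.AF

/-! ### calculus of `ld2` and determinants -/

def S_LD2 : Prop :=
  (∀ f g : ℝ → ℂ, ContDiff ℝ 2 f → ContDiff ℝ 2 g → f 0 ≠ 0 → g 0 ≠ 0 →
    ld2 (fun x => f x * g x) = ld2 f + ld2 g) ∧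
  (∀ c : ℂ, ld2 (fun _ => c) = 0) ∧
  (∀ {n : Type} [Fintype n] [DecidableEq n] (h h' : ℝ → Matrix n n ℂ) (h2 : Matrix n n ℂ),
    (∀ x i j, HasDerivAt (fun y => h y i j) (h' x i j) x) →
    (∀ i j, HasDerivAt (fun y => h' y i j) (h2 i j) 0) → det (h 0) ≠ 0 →
    ld2 (fun x => det (h x)) =
      trace ((h 0)⁻¹ * h2) - trace ((h 0)⁻¹ * h' 0 * ((h 0)⁻¹ * h' 0)))

/-- Faddeev-Popov identity. -/
def S_FP : Prop :=
  ∀ {W T : Type} [Fintype W] [Fintype T] [DecidableEq W] [DecidableEq T]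
    (h : Matrix (W ⊕ T) (W ⊕ T) ℂ) (D : Matrix (W ⊕ T) T ℂ), h * D = 0 → Dᴴ * h = 0 →
    det (h + D * Dᴴ) * (det D.toRows₂ * star (det D.toRows₂)) =
      det (Dᴴ * D) ^ 2 * det h.toBlocks₁₁

/-- Determinants of translation invariant matrices. -/
def S_FOUR : Prop :=
  ∀ (L : ℕ) [NeZero L] {J : Type} [Fintype J] [DecidableEq J] (σ : Sp L → Matrix J J ℂ),
    det (Matrix.of fun (p q : Sp L × J) => (1 / (L : ℂ) ^ 3) *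
      ∑ k : Sp L, (∏ j, zk k j ^ (p.1 j - q.1 j).val) * σ k p.2 q.2) = ∏ k, det (σ k)

/-- Passage to momentum space, the gauge fixed theory. -/
def S_POS : Prop :=
  ∀ (L : ℕ) [NeZero L], 2 ≤ L → ∀ ε : ℝ,
    det (rs (hF (L := L) ε)) = (1 / (L : ℂ) ^ 3) *
      (∏ k ∈ Finset.univ.filter (fun k : Sp L => k ≠ 0),
        det ((Matrix.of (hS (L := L) ε (zk k))).submatrix (jJ L) (jJ L))) *
      det ((Matrix.of (hS (L := L) ε 1)).submatrix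
        (Sum.inr : Fin (L - 1) × Fin 3 → AL L) (Sum.inr : Fin (L - 1) × Fin 3 → AL L))

/-- The ghosts cancel the transverse modes. -/
def S_SYM : Prop :=
  ∀ (L : ℕ) [NeZero L], 2 ≤ L → ∀ (ε : ℝ) (z : Fin 3 → ℂ), (∀ j, ‖z j‖ = 1) →
    det ((Matrix.of (hS (L := L) ε z)).submatrix (jJ L) (jJ L)) =
      det (blk L ε (z 0) (‖z 1 - 1‖ ^ 2 + ‖z 2 - 1‖ ^ 2))

/-- Second derivative of the logarithm of the determinant of a mode. -/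
def S_BLK : Prop :=
  ∀ (L : ℕ), 2 ≤ L → ∀ k b ω : ℝ, 0 ≤ b → 0 < ω →
    2 * Real.cosh ω - 2 = 2 - 2 * Real.cos k + b →
    ContDiff ℝ 2 (fun ε => det (blk L ε (Complex.exp (Complex.I * k)) b)) ∧
    det (blk L 0 (Complex.exp (Complex.I * k)) b) ≠ 0 ∧
    ld2 (fun ε => det (blk L ε (Complex.exp (Complex.I * k)) b)) = ((FF L k ω : ℝ) : ℂ)

/-- The modes of momentum zero. -/
def S_K0 : Prop :=
  ∃ C : ℝ, ∀ (L : ℕ) [NeZero L], 2 ≤ L →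
    ContDiff ℝ 2 (fun ε => det ((Matrix.of (hS (L := L) ε 1)).submatrix
      (Sum.inr : Fin (L - 1) × Fin 3 → AL L) (Sum.inr : Fin (L - 1) × Fin 3 → AL L))) ∧
    det ((Matrix.of (hS (L := L) 0 1)).submatrix
      (Sum.inr : Fin (L - 1) × Fin 3 → AL L) (Sum.inr : Fin (L - 1) × Fin 3 → AL L)) ≠ 0 ∧
    ‖ld2 (fun ε => det ((Matrix.of (hS (L := L) ε 1)).submatrix
      (Sum.inr : Fin (L - 1) × Fin 3 → AL L) (Sum.inr : Fin (L - 1) × Fin 3 → AL L)))‖ ≤ C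

/-- The Hessian is positive definite. -/
def S_HPD : Prop :=
  ∀ (L : ℕ) [NeZero L], 2 ≤ L →
    (rs (Hm (L := L))).PosDef ∧
    (∀ w w', |(rs (Hm (L := L)))⁻¹ w w'| ≤ 100 * (L : ℝ) ^ 4) ∧
    0 ≤ trace ((rs (Hm (L := L)))⁻¹ * rs (H01 (L := L))) ∧
    trace ((rs (Hm (L := L)))⁻¹ * rs (H01 (L := L))) ≤ 4 * (L : ℝ) ^ 4 ∧
    (∀ w w', |rs (Hm (L := L)) w w'| ≤ 1000 * (L : ℝ) ^ 4 ∧ |rs (Qm (L := L)) w w'| ≤ 1000 * (L : ℝ) ^ 4 ∧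
      |rs (Rm (L := L)) w w'| ≤ 1000 * (L : ℝ) ^ 4 ∧ |rs (H01 (L := L)) w w'| ≤ 1000 * (L : ℝ) ^ 4) ∧
    ((Fintype.card (Dy L) : ℕ) : ℝ) ≤ 4 * (L : ℝ) ^ 4 ∧
    (rs (Hm (L := L)))ᵀ = rs (Hm (L := L)) ∧ (rs (Qm (L := L)))ᵀ = -rs (Qm (L := L)) ∧
    (rs (Rm (L := L)))ᵀ = rs (Rm (L := L)) ∧ (rs (H01 (L := L)))ᵀ = rs (H01 (L := L))

/-- The one loop coefficient is a second logarithmic derivative. -/
def S_LNK : Prop :=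
  ∀ (L : ℕ) [NeZero L], 2 ≤ L → (rs (Hm (L := L))).PosDef →
    ContDiff ℝ 2 (fun ε => det (rs (hF (L := L) ε))) ∧ det (rs (hF (L := L) 0)) ≠ 0 ∧
    ld2 (fun ε => det (rs (hF (L := L) ε))) =
      ((trace ((rs (Hm (L := L)))⁻¹ * rs (Rm (L := L))) +
        trace ((rs (Hm (L := L)))⁻¹ * rs (Qm (L := L)) *
          ((rs (Hm (L := L)))⁻¹ * rs (Qm (L := L)))) : ℝ) : ℂ)

/-! ### Analysis -/

/-- The energies. -/
def S_EN : Prop :=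
  ∃ c C : ℝ, 0 < c ∧ 0 < C ∧ ∀ (L : ℕ) [NeZero L], 2 ≤ L → ∀ k : Sp L, k ≠ 0 →
    0 < en k ∧ 1 ≤ en k * L ∧ en k ≤ 3 ∧ 2 * Real.cosh (en k) - 2 = wh2 k ∧
    |wh2 k - en k ^ 2| ≤ C * en k ^ 4 ∧
    c * (∑ j, (((k j).valMinAbs : ℤ) : ℝ) ^ 2) ≤ (en k * L) ^ 2 ∧
    |en k - 2 * Real.pi / L * Real.sqrt (∑ j, (((k j).valMinAbs : ℤ) : ℝ) ^ 2)| ≤ C * en k ^ 3

/-- A trigonometric sum. -/
def S_TRIG : Prop :=
  ∀ (L : ℕ), 1 ≤ L → ∀ a η : ℝ, 0 < a → 0 < η → 2 * Real.cosh η - 2 = a →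
    ∑ m ∈ Finset.range L, (2 * Real.cos (2 * Real.pi * m / L) /
        (a + 2 - 2 * Real.cos (2 * Real.pi * m / L)) -
      4 * Real.sin (2 * Real.pi * m / L) ^ 2 /
        (a + 2 - 2 * Real.cos (2 * Real.pi * m / L)) ^ 2) =
      (L : ℝ) ^ 2 / (Real.cosh (L * η) - 1)

/-- Spectral representation of the Green functions. -/
def S_SPEC : Prop :=
  ∀ (L : ℕ), 2 ≤ L → ∀ ω : ℝ, 0 < ω →
    (∀ t, t < L → GD L ω t t = ∑ j ∈ Finset.range L,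
      2 / (L : ℝ) * Real.sin (Real.pi * j * t / L) ^ 2 /
        (2 - 2 * Real.cos (Real.pi * j / L) + (2 * Real.cosh ω - 2))) ∧
    (∀ t, t < L → ∑ s ∈ Finset.range L, GD L ω t s ^ 2 = ∑ j ∈ Finset.range L,
      2 / (L : ℝ) * Real.sin (Real.pi * j * t / L) ^ 2 /
        (2 - 2 * Real.cos (Real.pi * j / L) + (2 * Real.cosh ω - 2)) ^ 2) ∧
    (∀ t, t < L → GN L ω t t = ∑ j ∈ Finset.range L,
      (if j = 0 then 1 else 2) / (L : ℝ) * Real.cos (Real.pi * j * (t + 1 / 2) / L) ^ 2 /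
        (2 - 2 * Real.cos (Real.pi * j / L) + (2 * Real.cosh ω - 2))) ∧
    (∀ t, t < L → ∑ s ∈ Finset.range L, GN L ω t s ^ 2 = ∑ j ∈ Finset.range L,
      (if j = 0 then 1 else 2) / (L : ℝ) * Real.cos (Real.pi * j * (t + 1 / 2) / L) ^ 2 /
        (2 - 2 * Real.cos (Real.pi * j / L) + (2 * Real.cosh ω - 2)) ^ 2)

def C_GI : Prop :=
  ∃ C : ℝ, ∀ (L : ℕ) [NeZero L], 2 ≤ L → ∀ t, t < L →
    |∑ k ∈ Finset.univ.filter (fun k : Sp L => k ≠ 0), (2 * Real.cos (ang k 0) * GD L (en k) t t -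
      4 * Real.sin (ang k 0) ^ 2 * ∑ s ∈ Finset.range L, GD L (en k) t s ^ 2)| ≤ C * L ∧
    |∑ k ∈ Finset.univ.filter (fun k : Sp L => k ≠ 0), (2 * Real.cos (ang k 0) * GN L (en k) t t -
      4 * Real.sin (ang k 0) ^ 2 * ∑ s ∈ Finset.range L, GN L (en k) t s ^ 2)| ≤ C * L

/-- The cancellation due to gauge invariance. -/
def S_GI : Prop := S_TRIG → S_SPEC → S_EN → C_GI

/-- Sums over an interval of the squares of the Green functions. -/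
def S_SPR : Prop :=
  ∃ C : ℝ, ∀ (L : ℕ), 2 ≤ L → ∀ ω : ℝ, 0 < ω → ω ≤ 3 → 1 ≤ ω * L →
    |(∑ t ∈ Finset.range L, ∑ s ∈ Finset.range L,
      ((t : ℝ) - s) ^ 2 * (GN L ω t s ^ 2 + GD L ω t s ^ 2)) - L / (4 * ω ^ 5)| ≤
        C * (1 / ω ^ 6 + L / ω ^ 4)

/-- Sums over an interval of the products of the Green functions. -/
def S_SPY : Prop :=
  ∃ C : ℝ, ∀ (L : ℕ), 2 ≤ L → ∀ ω : ℝ, 0 < ω → ω ≤ 3 → 1 ≤ ω * L →
    |(∑ t ∈ Finset.range L, ∑ s ∈ Finset.range L,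
      GN L ω t s * (GD L ω t s + GD L ω (t + 1) s + GD L ω t (s + 1) + GD L ω (t + 1) (s + 1))) -
        L / ω ^ 3| ≤ C * (1 / ω ^ 4 + L / ω ^ 2)

/-- The remaining terms. -/
def S_SPW : Prop :=
  ∃ C : ℝ, ∀ (L : ℕ), 2 ≤ L → ∀ ω : ℝ, 0 < ω → ω ≤ 3 → 1 ≤ ω * L → |FW L ω| ≤ C * (L / ω)

/-- Integer points. -/
def S_Z3 : Prop :=
  ∃ C : ℝ, ∀ (L : ℕ) [NeZero L], 2 ≤ L →
    |(∑ k ∈ Finset.univ.filter (fun k : Sp L => k ≠ 0),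
      1 / Real.sqrt (∑ j, (((k j).valMinAbs : ℤ) : ℝ) ^ 2) ^ 3) - 4 * Real.pi * Real.log L| ≤ C

def C_SUMS : Prop :=
  ∃ C : ℝ, ∀ (L : ℕ) [NeZero L], 2 ≤ L →
    (∑ k ∈ Finset.univ.filter (fun k : Sp L => k ≠ 0), 1 / en k ^ 4) ≤ C * (L : ℝ) ^ 4 ∧
    (∑ k ∈ Finset.univ.filter (fun k : Sp L => k ≠ 0), 1 / en k ^ 2) ≤ C * (L : ℝ) ^ 3 ∧
    (∑ k ∈ Finset.univ.filter (fun k : Sp L => k ≠ 0), 1 / en k) ≤ C * (L : ℝ) ^ 3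

/-- Sums over the momenta. -/
def S_SUMS : Prop := S_EN → C_SUMS

def C_LOG : Prop :=
  ∃ C : ℝ, ∀ (L : ℕ) [NeZero L], 2 ≤ L →
    |(∑ k ∈ Finset.univ.filter (fun k : Sp L => k ≠ 0), 1 / en k ^ 3) / (L : ℝ) ^ 3 -
      1 / (2 * Real.pi ^ 2) * Real.log L| ≤ C ∧
    |(∑ k ∈ Finset.univ.filter (fun k : Sp L => k ≠ 0), Real.sin (ang k 0) ^ 2 / en k ^ 5) /
      (L : ℝ) ^ 3 - 1 / (6 * Real.pi ^ 2) * Real.log L| ≤ C ∧
    |(∑ k ∈ Finset.univ.filter (fun k : Sp L => k ≠ 0), (1 - Real.cos (ang k 0)) / en k ^ 3) /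
      (L : ℝ) ^ 3| ≤ C

/-- The logarithms. -/
def S_LOG : Prop := S_EN → S_Z3 → C_SUMS → C_LOG

/-- The asymptotics of the one loop coefficient. -/
def S_ASY : Prop :=
  ∃ C : ℝ, ∀ (L : ℕ) [NeZero L], 2 ≤ L →
    |(∑ k ∈ Finset.univ.filter (fun k : Sp L => k ≠ 0), FF L (ang k 0) (en k)) +
      11 / (12 * Real.pi ^ 2) * Real.log L| ≤ C

def S_ASYM : Prop :=
  S_EN → C_GI → S_SPR → S_SPY → S_SPW → C_SUMS → C_LOG → S_ASY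

/-- Assembly of the algebra. -/
def C_COEF : Prop :=
  ∃ C : ℝ, ∀ (L : ℕ) [NeZero L], 2 ≤ L →
    |trace ((rs (Hm (L := L)))⁻¹ * rs (Rm (L := L))) +
      trace ((rs (Hm (L := L)))⁻¹ * rs (Qm (L := L)) *
        ((rs (Hm (L := L)))⁻¹ * rs (Qm (L := L)))) + 11 / (12 * Real.pi ^ 2) * Real.log L| ≤ C

def S_COEF : Prop :=
  S_LD2 → S_POS → S_SYM → S_BLK → S_K0 → S_HPD → S_LNK → S_EN → S_ASY → C_COEF

end Pool.Agent.Y16.AF
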