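import Mathlib
import Pool.Agent.Y16.AF.StmA

/-! Statements for project AF, second part: convergence of the one loop constant. -/

open MeasureTheory Matrix Filter
open scoped Matrix.Norms.Frobenius Topology
open Pool.Agent.Y16.Gluon

namespace Pool.Agent.Y16.AF

/-- The nonzero momenta. -/
noncomputable def nz (L : ℕ) [NeZero L] : Finset (Sp L) :=
  Finset.univ.filter (fun k : Sp L => k ≠ 0)

/-- The integer representative of a momentum. -/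
def ir {L : ℕ} (k : Sp L) : Fin 3 → ℤ := fun j => (k j).valMinAbs

/-! ### general facts -/

/-- Dominated convergence for sums over the momenta. -/
def S_TAN : Prop :=
  ∀ (F : ℕ → (Fin 3 → ℤ) → ℝ) (φ : (Fin 3 → ℤ) → ℝ) (C : ℝ),
    (∀ n, n ≠ 0 → Tendsto (fun L => F L n) atTop (𝓝 (φ n))) →
    (∀ (L : ℕ) (n : Fin 3 → ℤ), n ≠ 0 → (∀ j, 2 * |n j| ≤ (L : ℤ)) → |F L n| ≤ C / (∑ j, (n j : ℝ) ^ 2) ^ 2) →
    ∃ x : ℝ, Tendsto (fun L : ℕ => ∑ k ∈ nz (L + 2), F (L + 2) (ir k)) atTop (𝓝 x)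

/-- Riemann sums of functions with an integrable singularity. -/
def S_RS : Prop :=
  ∀ (h : (Fin 3 → ℝ) → ℝ) (C : ℝ),
    ContinuousOn h ({x | ∀ j, |x j| ≤ Real.pi} \ {0}) →
    (∀ x : Fin 3 → ℝ, (∀ j, |x j| ≤ Real.pi) → x ≠ 0 → |h x| ≤ C / ∑ j, x j ^ 2) →
    ∃ x : ℝ, Tendsto (fun L : ℕ => 1 / ((L + 2 : ℕ) : ℝ) ^ 3 *
      ∑ k ∈ nz (L + 2), h (fun j => 2 * Real.pi / ((L + 2 : ℕ) : ℝ) * (ir k j : ℝ))) atTop (𝓝 x)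

/-- Integer points, limit. -/
def S_Z3L : Prop :=
  ∃ x : ℝ, Tendsto (fun L : ℕ => (∑ k ∈ nz (L + 2),
    1 / Real.sqrt (∑ j, (ir k j : ℝ) ^ 2) ^ 3) - 4 * Real.pi * Real.log ((L + 2 : ℕ) : ℝ))
    atTop (𝓝 x)

/-! ### double sums over the interval -/

noncomputable def VV (L : ℕ) (ω : ℝ) : ℝ := ∑ t ∈ Finset.range L, ∑ s ∈ Finset.range L,
  ((t : ℝ) - s) ^ 2 * (GN L ω t s ^ 2 + GD L ω t s ^ 2)

noncomputable def YY (L : ℕ) (ω : ℝ) : ℝ := ∑ t ∈ Finset.range L, ∑ s ∈ Finset.range L,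
  GN L ω t s * (GD L ω t s + GD L ω (t + 1) s + GD L ω t (s + 1) + GD L ω (t + 1) (s + 1))

def S_SPR2 : Prop :=
  ∃ C : ℝ, ∀ (L : ℕ), 2 ≤ L → ∀ ω : ℝ, 0 < ω → ω ≤ 3 → 1 ≤ ω * L →
    |VV L ω - L * (Real.cosh ω / (4 * Real.sinh ω ^ 5))| ≤ C / ω ^ 6

def S_SPY2 : Prop :=
  ∃ C : ℝ, ∀ (L : ℕ), 2 ≤ L → ∀ ω : ℝ, 0 < ω → ω ≤ 3 → 1 ≤ ω * L →
    |YY L ω - L * ((Real.cosh ω + 1) / (2 * Real.sinh ω ^ 3))| ≤ C / ω ^ 4

def S_SPW2 : Prop :=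
  ∃ C : ℝ, ∀ (L : ℕ), 2 ≤ L → ∀ ω : ℝ, 0 < ω → ω ≤ 3 → 1 ≤ ω * L →
    |FW L ω + L / (2 * Real.sinh ω)| ≤ C / ω ^ 2

/-- Scaling limits. -/
def S_VL : Prop :=
  ∃ ρ : ℝ → ℝ, ∀ (p : ℕ → ℝ) (q : ℝ), 0 < q → Tendsto p atTop (𝓝 q) →
    Tendsto (fun L : ℕ => VV L (p L / L) / (L : ℝ) ^ 6) atTop (𝓝 (ρ q))

def S_YL : Prop :=
  ∃ ρ : ℝ → ℝ, ∀ (p : ℕ → ℝ) (q : ℝ), 0 < q → Tendsto p atTop (𝓝 q) →
    Tendsto (fun L : ℕ => YY L (p L / L) / (L : ℝ) ^ 4) atTop (𝓝 (ρ q))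

/-! ### the four parts of the coefficient -/

def C_L1 : Prop :=
  ∃ x : ℝ, Tendsto (fun L : ℕ => (∑ k ∈ nz (L + 2),
    2 * Real.sin (ang k 0) ^ 2 * VV (L + 2) (en k)) / ((L + 2 : ℕ) : ℝ) ^ 4 -
      1 / (12 * Real.pi ^ 2) * Real.log ((L + 2 : ℕ) : ℝ)) atTop (𝓝 x)

def S_L1 : Prop := S_EN → S_SPR2 → S_VL → S_RS → S_Z3L → S_TAN → C_L1

def C_L2 : Prop :=
  ∃ x : ℝ, Tendsto (fun L : ℕ => (∑ k ∈ nz (L + 2), FY (L + 2) (ang k 0) (en k)) /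
    ((L + 2 : ℕ) : ℝ) ^ 4 - 1 / Real.pi ^ 2 * Real.log ((L + 2 : ℕ) : ℝ)) atTop (𝓝 x)

def S_L2 : Prop := S_EN → S_SPY2 → S_YL → S_RS → S_Z3L → S_TAN → C_L2

def C_L3 : Prop :=
  ∃ x : ℝ, Tendsto (fun L : ℕ => (∑ k ∈ nz (L + 2), FW (L + 2) (en k)) /
    ((L + 2 : ℕ) : ℝ) ^ 4) atTop (𝓝 x)

def S_L3 : Prop := S_EN → C_SUMS → S_SPW2 → S_RS → C_L3

/-- The sums of `S_GI`. -/
noncomputable def ED (L : ℕ) [NeZero L] (t : ℕ) : ℝ :=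
  ∑ k ∈ nz L, (2 * Real.cos (ang k 0) * GD L (en k) t t -
    4 * Real.sin (ang k 0) ^ 2 * ∑ s ∈ Finset.range L, GD L (en k) t s ^ 2)

noncomputable def EN (L : ℕ) [NeZero L] (t : ℕ) : ℝ :=
  ∑ k ∈ nz L, (2 * Real.cos (ang k 0) * GN L (en k) t t -
    4 * Real.sin (ang k 0) ^ 2 * ∑ s ∈ Finset.range L, GN L (en k) t s ^ 2)

def C_L4D : Prop :=
  ∃ x : ℝ, Tendsto (fun L : ℕ => (∑ t ∈ Finset.range (L + 2), (t : ℝ) ^ 2 * ED (L + 2) t) /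
    ((L + 2 : ℕ) : ℝ) ^ 4) atTop (𝓝 x)

def C_L4N : Prop :=
  ∃ x : ℝ, Tendsto (fun L : ℕ => (∑ t ∈ Finset.range (L + 2), ((t : ℝ) + 1 / 2) ^ 2 *
    EN (L + 2) t) / ((L + 2 : ℕ) : ℝ) ^ 4) atTop (𝓝 x)

def S_L4D : Prop := S_TRIG → S_SPEC → S_EN → C_L4D

def S_L4N : Prop := S_TRIG → S_SPEC → S_EN → C_L4N

/-- Convergence of the coefficient. -/
def C_ASYL : Prop :=
  ∃ x : ℝ, Tendsto (fun L : ℕ => (∑ k ∈ nz (L + 2), FF (L + 2) (ang k 0) (en k)) +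
    11 / (12 * Real.pi ^ 2) * Real.log ((L + 2 : ℕ) : ℝ)) atTop (𝓝 x)

def S_ASYL : Prop := C_L1 → C_L2 → C_L3 → C_L4D → C_L4N → C_ASYL

/-- The modes of momentum zero, limit. -/
def S_K0L : Prop :=
  ∃ x : ℂ, Tendsto (fun L : ℕ => ld2 (fun ε => det ((Matrix.of (hS (L := L + 2) ε 1)).submatrix
    (Sum.inr : Fin (L + 2 - 1) × Fin 3 → AL (L + 2))
    (Sum.inr : Fin (L + 2 - 1) × Fin 3 → AL (L + 2))))) atTop (𝓝 x)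

/-! ### the fluctuation of the plaquettes in the plane of the background field -/

/-- The symbol without background field, with weight `1 + lam` for the plane `0`. -/
noncomputable def hL0 {L : ℕ} (lam : ℝ) (z : Fin 3 → ℂ) (a b : AL L) : ℂ :=
  ∑ t : Fin L, ∑ κ, ∑ i, ∑ j, inl1 t κ i a * inl1 t κ j b *
    (if κ = .inl 0 then (1 + lam : ℂ) else 1) * ((starRingEnd ℂ) (lz z κ i) * lz z κ j)

def S_POS0 : Prop :=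
  ∀ (L : ℕ) [NeZero L], 2 ≤ L → ∀ lam : ℝ,
    ((det (rs (Hm (L := L)) + lam • rs (H01 (L := L))) : ℝ) : ℂ) = (1 / (L : ℂ) ^ 3) *
      (∏ k ∈ nz L, det ((Matrix.of (hL0 (L := L) lam (zk k))).submatrix (jJ L) (jJ L))) *
      det ((Matrix.of (hL0 (L := L) lam 1)).submatrix
        (Sum.inr : Fin (L - 1) × Fin 3 → AL L) (Sum.inr : Fin (L - 1) × Fin 3 → AL L))

/-- The fluctuation in a mode. -/
noncomputable def WF (L : ℕ) (k ω : ℝ) : ℝ :=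
  (2 - 2 * Real.cos k) * (∑ t ∈ Finset.range L, GN L ω t t) +
    ∑ t ∈ Finset.range (L - 1), (1 - (2 * Real.cosh ω - 2) * GD L ω (t + 1) (t + 1))

def S_SYM0 : Prop :=
  ∀ (L : ℕ) [NeZero L], 2 ≤ L → ∀ k : Sp L, k ≠ 0 →
    det ((Matrix.of (hL0 (L := L) 0 (zk k))).submatrix (jJ L) (jJ L)) ≠ 0 ∧
    HasDerivAt (fun lam : ℝ => det ((Matrix.of (hL0 (L := L) lam (zk k))).submatrix (jJ L) (jJ L)))
      (det ((Matrix.of (hL0 (L := L) 0 (zk k))).submatrix (jJ L) (jJ L)) *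
        ((WF L (ang k 0) (en k) : ℝ) : ℂ)) 0

def S_K00 : Prop :=
  ∀ (L : ℕ) [NeZero L], 2 ≤ L →
    det ((Matrix.of (hL0 (L := L) 0 1)).submatrix
        (Sum.inr : Fin (L - 1) × Fin 3 → AL L) (Sum.inr : Fin (L - 1) × Fin 3 → AL L)) ≠ 0 ∧
    HasDerivAt (fun lam : ℝ => det ((Matrix.of (hL0 (L := L) lam 1)).submatrix
        (Sum.inr : Fin (L - 1) × Fin 3 → AL L) (Sum.inr : Fin (L - 1) × Fin 3 → AL L)))
      (det ((Matrix.of (hL0 (L := L) 0 1)).submatrix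
        (Sum.inr : Fin (L - 1) × Fin 3 → AL L) (Sum.inr : Fin (L - 1) × Fin 3 → AL L)) *
        ((L : ℂ) - 1)) 0

/-- The formula for the fluctuation. -/
def C_WF : Prop :=
  ∀ (L : ℕ) [NeZero L], 2 ≤ L →
    trace ((rs (Hm (L := L)))⁻¹ * rs (H01 (L := L))) =
      (∑ k ∈ nz L, WF L (ang k 0) (en k)) + ((L : ℝ) - 1)

def S_WF : Prop := S_POS0 → (S_EN → S_SYM0) → S_K00 → S_HPD → S_EN → C_WF

/-- The limit of the fluctuation. -/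
def C_WL : Prop :=
  ∃ x : ℝ, Tendsto (fun L : ℕ => trace ((rs (Hm (L := L + 2)))⁻¹ * rs (H01 (L := L + 2))) /
    ((L + 2 : ℕ) : ℝ) ^ 4) atTop (𝓝 x)

def S_WL : Prop := C_WF → S_EN → C_SUMS → S_RS → C_WL

/-! ### simple groups -/

/-- For a simple Lie algebra the coefficient is proportional to the norm. -/
def S_SIMP : Prop :=
  ∀ {N n : ℕ} (G : Subgroup (UU N)) (B : LieBasis G n), 0 < n →
    (∀ W : Submodule ℝ (Mt N), W ≤ Submodule.span ℝ (Set.range B.X) →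
      (∀ a, ∀ Y ∈ W, B.X a * Y - Y * B.X a ∈ W) →
      W = ⊥ ∨ W = Submodule.span ℝ (Set.range B.X)) →
    ∀ T ∈ Submodule.span ℝ (Set.range B.X),
      (∑ a, ‖T * B.X a - B.X a * T‖ ^ 2) =
        (1 / (n : ℝ) * ∑ a, ∑ b, ‖B.X a * B.X b - B.X b * B.X a‖ ^ 2) * ‖T‖ ^ 2

end Pool.Agent.Y16.AF
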