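import Mathlib
import Pool.Agent.Y16.AF.StmB

/-! Statements for project AF, fourth part. -/

open MeasureTheory Matrix Filter
open scoped Matrix.Norms.Frobenius Topology
open Pool.Agent.Y16.Gluon

namespace Pool.Agent.Y16.AF

/-- The two quadratic forms for the group `SU(N)`. -/
def S_SUN : Prop :=
  ∀ {N n : ℕ} (G : Subgroup (UU N)) (B : LieBasis G n), 0 < N →
    (∀ U : UU N, U ∈ G ↔ det (U : Mt N) = 1) →
    ∀ T ∈ Submodule.span ℝ (Set.range B.X),
      kap B T = 2 * N * ‖T‖ ^ 2 ∧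
      (∑ a, ‖B.X a * T‖ ^ 2) = ((N : ℝ) - 1 / N) * ‖T‖ ^ 2

end Pool.Agent.Y16.AF
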