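import Mathlib
import Pool.Agent.Y16.AF.StmA

open MeasureTheory Matrix
open scoped Matrix.Norms.Frobenius Topology

namespace Pool.Agent.Y16.AF

lemma zk_eq {L : ℕ} [NeZero L] (k : Sp L) (j : Fin 3) :
    zk k j = Complex.exp (Complex.I * (ang k j : ℝ)) := by
  unfold zk ang
  have h : (k j : ZMod L) = (((k j).val : ℤ) : ZMod L) := by
    simp
  rw [h, ZMod.stdAddChar_coe]
  congr 1
  have h2 : (((k j).val : ℤ) : ZMod L).val = (k j).val := by
    simp
  rw [h2]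
  push_cast
  ring

lemma norm_zk {L : ℕ} [NeZero L] (k : Sp L) (j : Fin 3) : ‖zk k j‖ = 1 := by
  rw [zk_eq, mul_comm, Complex.norm_exp_ofReal_mul_I]

lemma norm_zk_sub {L : ℕ} [NeZero L] (k : Sp L) (j : Fin 3) :
    ‖zk k j - 1‖ ^ 2 = 2 - 2 * Real.cos (ang k j) := by
  rw [zk_eq, Complex.norm_exp_I_mul_ofReal_sub_one, Real.norm_eq_abs, sq_abs, mul_pow,
    Real.sin_sq_eq_half_sub]
  have : 2 * (ang k j / 2) = ang k j := by ring
  rw [this]; ring

lemma ld2_prod (h1 : S_LD2) {ι : Type*} [DecidableEq ι] (s : Finset ι) (f : ι → ℝ → ℂ)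
    (hc : ∀ i ∈ s, ContDiff ℝ 2 (f i)) (h0 : ∀ i ∈ s, f i 0 ≠ 0) :
    ld2 (fun x => ∏ i ∈ s, f i x) = ∑ i ∈ s, ld2 (f i) := by
  induction s using Finset.induction_on with
  | empty => simpa using h1.2.1 1
  | insert a s ha ih =>
    have e : (fun x => ∏ i ∈ insert a s, f i x) = fun x => f a x * ∏ i ∈ s, f i x := by
      funext x; rw [Finset.prod_insert ha]
    have hP : ContDiff ℝ 2 (fun x => ∏ i ∈ s, f i x) :=
      contDiff_prod fun i hi => hc i (Finset.mem_insert_of_mem hi)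
    rw [e, h1.1 _ _ (hc a (Finset.mem_insert_self _ _)) hP (h0 a (Finset.mem_insert_self _ _))
      (Finset.prod_ne_zero_iff.2 fun i hi => h0 i (Finset.mem_insert_of_mem hi)),
      Finset.sum_insert ha,
      ih (fun i hi => hc i (Finset.mem_insert_of_mem hi))
        (fun i hi => h0 i (Finset.mem_insert_of_mem hi))]

theorem coef : S_COEF := by
  intro hld hpos hsym hblk hk0 hhpd hlnk hen hasy
  obtain ⟨C1, hC1⟩ := hk0
  obtain ⟨C2, hC2⟩ := hasy
  obtain ⟨c, C, hc, hC, hen⟩ := hen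
  refine ⟨C1 + C2, fun L _ hL => ?_⟩
  obtain ⟨hk1, hk2, hk3⟩ := hC1 L hL
  obtain ⟨hl1, hl2, hl3⟩ := hlnk L hL (hhpd L hL).1
  set X : ℝ := trace ((rs (Hm (L := L)))⁻¹ * rs (Rm (L := L))) +
      trace ((rs (Hm (L := L)))⁻¹ * rs (Qm (L := L)) *
        ((rs (Hm (L := L)))⁻¹ * rs (Qm (L := L)))) with hX
  set g : ℝ → ℂ := fun ε => det ((Matrix.of (hS (L := L) ε 1)).submatrix
      (Sum.inr : Fin (L - 1) × Fin 3 → AL L) (Sum.inr : Fin (L - 1) × Fin 3 → AL L)) with hg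
  set b : Sp L → ℝ := fun k => (2 - 2 * Real.cos (ang k 1)) + (2 - 2 * Real.cos (ang k 2)) with hb
  set f : Sp L → ℝ → ℂ := fun k ε => det (blk L ε (Complex.exp (Complex.I * (ang k 0 : ℝ))) (b k))
    with hf
  have hwh : ∀ k : Sp L, wh2 k = 2 - 2 * Real.cos (ang k 0) + b k := by
    intro k
    simp only [wh2, hb, Fin.sum_univ_three]
    ring
  have hb0 : ∀ k, 0 ≤ b k := by
    intro k
    have h1 := Real.cos_le_one (ang k 1)
    have h2 := Real.cos_le_one (ang k 2)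
    simp only [hb]
    linarith
  have hB : ∀ k : Sp L, k ≠ 0 → ContDiff ℝ 2 (f k) ∧ f k 0 ≠ 0 ∧
      ld2 (f k) = ((FF L (ang k 0) (en k) : ℝ) : ℂ) := by
    intro k hk
    obtain ⟨h1, -, -, h4, -⟩ := hen L hL k hk
    exact hblk L hL (ang k 0) (b k) (en k) (hb0 k) h1 (by rw [h4, hwh])
  have hdet : (fun ε => det (rs (hF (L := L) ε))) =
      fun ε => (1 / (L : ℂ) ^ 3) *
        ((∏ k ∈ Finset.univ.filter (fun k : Sp L => k ≠ 0), f k ε) * g ε) := by
    funext ε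
    rw [hpos L hL ε, mul_assoc]
    congr 2
    refine Finset.prod_congr rfl fun k _ => ?_
    rw [hsym L hL ε (zk k) (norm_zk k), norm_zk_sub, norm_zk_sub, zk_eq]
  have hL0 : (L : ℂ) ≠ 0 := by
    exact_mod_cast (NeZero.ne L)
  have hP : ContDiff ℝ 2 (fun ε => ∏ k ∈ Finset.univ.filter (fun k : Sp L => k ≠ 0), f k ε) :=
    contDiff_prod fun k hk => (hB k (Finset.mem_filter.1 hk).2).1
  have hP0 : (∏ k ∈ Finset.univ.filter (fun k : Sp L => k ≠ 0), f k 0) ≠ 0 :=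
    Finset.prod_ne_zero_iff.2 fun k hk => (hB k (Finset.mem_filter.1 hk).2).2.1
  have hsum : ld2 (fun ε => det (rs (hF (L := L) ε))) =
      (((∑ k ∈ Finset.univ.filter (fun k : Sp L => k ≠ 0), FF L (ang k 0) (en k) : ℝ)) : ℂ) +
        ld2 g := by
    rw [hdet, hld.1 (fun _ => 1 / (L : ℂ) ^ 3) _ contDiff_const (hP.mul hk1)
      (by simpa using hL0) (mul_ne_zero hP0 hk2), hld.2.1, zero_add,
      hld.1 _ _ hP hk1 hP0 hk2, ld2_prod hld _ _
        (fun k hk => (hB k (Finset.mem_filter.1 hk).2).1)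
        (fun k hk => (hB k (Finset.mem_filter.1 hk).2).2.1)]
    congr 1
    push_cast
    refine Finset.sum_congr rfl fun k hk => ?_
    exact (hB k (Finset.mem_filter.1 hk).2).2.2
  rw [hl3] at hsum
  have hre : X = (∑ k ∈ Finset.univ.filter (fun k : Sp L => k ≠ 0), FF L (ang k 0) (en k)) +
      (ld2 g).re := by
    have := congrArg Complex.re hsum
    rw [Complex.add_re, Complex.ofReal_re, Complex.ofReal_re] at this
    exact this
  have h2 := hC2 L hL
  have h3 : |(ld2 g).re| ≤ C1 := (Complex.abs_re_le_norm _).trans hk3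
  rw [hre]
  have : (∑ k ∈ Finset.univ.filter (fun k : Sp L => k ≠ 0), FF L (ang k 0) (en k)) +
      (ld2 g).re + 11 / (12 * Real.pi ^ 2) * Real.log L =
      (ld2 g).re + ((∑ k ∈ Finset.univ.filter (fun k : Sp L => k ≠ 0), FF L (ang k 0) (en k)) +
        11 / (12 * Real.pi ^ 2) * Real.log L) := by ring
  rw [this]
  exact (abs_add_le _ _).trans (add_le_add h3 h2)

end Pool.Agent.Y16.AF
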