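import Mathlib
import Pool.Agent.Y16.AF.Defs

/-! Statements for project AF: probability (never import this file in a proof). -/

open MeasureTheory Matrix
open scoped Matrix.Norms.Frobenius Topology
open Pool.Agent.Y16.Gluon

namespace Pool.Agent.Y16.AF

/-- Small balls. -/
def S_BALL : Prop :=
  ∀ {N : ℕ} (G : Subgroup (UU N)) (_ : IsClosed (G : Set (UU N))) [MeasurableSpace G]
    [BorelSpace G] (μ : Measure G) [IsProbabilityMeasure μ] [μ.IsHaarMeasure],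
    ∃ c : ℝ, 0 < c ∧ ∃ D : ℕ, ∀ r : ℝ, 0 < r → r ≤ 1 →
      c * r ^ D ≤ (μ {g : G | ‖mt g - 1‖ ≤ r}).toReal

/-- Coercivity of the action. -/
def S_COER : Prop :=
  ∀ {N : ℕ} (G : Subgroup (UU N)) (L : ℕ) [NeZero L], 2 ≤ L → ∀ (U : Links L → G) (w : Links L),
    dyn w → ‖mt (U w) - 1‖ ^ 2 ≤ 100 * (L : ℝ) ^ 4 * S0 U

/-- Moments of the size of the configuration. -/
def S_MOM : Prop :=
  S_BALL → S_COER → ∀ {N : ℕ} (G : Subgroup (UU N)) (_ : IsClosed (G : Set (UU N)))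
    [MeasurableSpace G] [BorelSpace G] (μ : Measure G) [IsProbabilityMeasure μ] [μ.IsHaarMeasure],
    ∃ C : ℝ, 1 ≤ C ∧ ∀ (L : ℕ) [NeZero L], 2 ≤ L → ∀ β : ℝ, 3 ≤ β → ∀ p : ℕ, p ≤ 8 →
      EX (L := L) μ β (fun U => rr U ^ p) ≤ Real.sqrt (C * (L : ℝ) ^ 16 * Real.log β / β) ^ p

/-- Gauge fixing. -/
def S_GAUGE : Prop :=
  ∀ {N : ℕ} (G : Subgroup (UU N)) (_ : IsClosed (G : Set (UU N))) [MeasurableSpace G]
    [BorelSpace G] (μ : Measure G) [IsProbabilityMeasure μ] [μ.IsHaarMeasure] (T : Mt N)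
    (e : ℝ → G) (_ : ∀ t, mt (e t) = NormedSpace.exp (t • T)) (L : ℕ) [NeZero L], 2 ≤ L →
    ∀ β ε : ℝ, Z μ e L β ε =
      ∫ U : Links L → G, Real.exp (-(β * Sg e ε U)) ∂(Measure.pi fun _ => μ)

/-- Differentiation of the partition function. -/
def S_DIFF : Prop :=
  ∀ {N : ℕ} (G : Subgroup (UU N)) (_ : IsClosed (G : Set (UU N))) [MeasurableSpace G]
    [BorelSpace G] (μ : Measure G) [IsProbabilityMeasure μ] (T : Mt N)
    (e : ℝ → G) (_ : ∀ t, mt (e t) = NormedSpace.exp (t • T)) (L : ℕ) [NeZero L] (β : ℝ),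
    iteratedDeriv 2 (fun ε => -Real.log
      (∫ U : Links L → G, Real.exp (-(β * Sg e ε U)) ∂(Measure.pi fun _ => μ))) 0 =
      β * EX μ β (S2 (L := L) T) -
        β ^ 2 * (EX μ β (fun U => S1 (L := L) T U ^ 2) - EX μ β (S1 (L := L) T) ^ 2)

/-- Taylor expansion of the first derivative of the action in the background field. -/
def S_TAY1 : Prop :=
  ∀ {N n : ℕ} (G : Subgroup (UU N)) (_ : IsClosed (G : Set (UU N))) (B : LieBasis G n) (T : Mt N)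
    (e : ℝ → G) (_ : ∀ t, mt (e t) = NormedSpace.exp (t • T)),
    ∃ C : ℝ, ∀ (L : ℕ) [NeZero L], 2 ≤ L → ∀ U : Links L → G,
      |S1 T U - 1 / 2 * ∑ i : Dy L × Fin n, ∑ j : Dy L × Fin n,
        rs (Qm (L := L)) i.1 j.1 * Jm B T i.2 j.2 * (cA B U i * cA B U j)| ≤
          C * (L : ℝ) ^ 4 * rr U ^ 3

/-- Taylor expansion of the second derivative of the action in the background field. -/
def S_TAY2 : Prop :=
  ∀ {N n : ℕ} (G : Subgroup (UU N)) (_ : IsClosed (G : Set (UU N))) (B : LieBasis G n) (T : Mt N)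
    (e : ℝ → G) (_ : ∀ t, mt (e t) = NormedSpace.exp (t • T)),
    ∃ C : ℝ, ∀ (L : ℕ) [NeZero L], 2 ≤ L → ∀ U : Links L → G,
      |S2 T U - ‖T‖ ^ 2 - 1 / 2 * ∑ i : Dy L × Fin n, ∑ j : Dy L × Fin n,
        (rs (Rm (L := L)) i.1 j.1 * (-(Jm B T * Jm B T)) i.2 j.2 +
          1 / (L : ℝ) ^ 4 * rs (H01 (L := L)) i.1 j.1 * eM B T i.2 j.2) *
          (cA B U i * cA B U j)| ≤ C * (L : ℝ) ^ 4 * rr U ^ 3

/-- Taylor expansion of the gradient of the action. -/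
def S_TAYG : Prop :=
  ∀ {N n : ℕ} (G : Subgroup (UU N)) (_ : IsClosed (G : Set (UU N))) (B : LieBasis G n),
    ∃ C : ℝ, ∀ (L : ℕ) [NeZero L], 2 ≤ L → ∀ (U : Links L → G) (i : Dy L × Fin n),
      |GS B U i - ∑ w : Dy L, rs (Hm (L := L)) i.1 w * cA B U (w, i.2)| ≤
          C * (L : ℝ) ^ 4 * rr U ^ 2 ∧
      |cA B U i| ≤ rr U ∧
      ∀ j, |dA B U i j - (if i = j then 1 else 0)| ≤ C * rr U

/-- Integration by parts. -/
def S_IBP : Prop :=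
  ∀ {N n : ℕ} (G : Subgroup (UU N)) (_ : IsClosed (G : Set (UU N))) [MeasurableSpace G]
    [BorelSpace G] (μ : Measure G) [IsProbabilityMeasure μ] [μ.IsHaarMeasure] (B : LieBasis G n)
    (L : ℕ) [NeZero L], 2 ≤ L → ∀ β : ℝ,
    (∀ i j : Dy L × Fin n, EX μ β (fun U => dA B U i j) =
      β * EX μ β (fun U => cA B U j * GS B U i)) ∧
    ∀ i j k l : Dy L × Fin n, EX μ β (fun U => dA B U i j * cA B U k * cA B U l +
        cA B U j * dA B U i k * cA B U l + cA B U j * cA B U k * dA B U i l) =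
      β * EX μ β (fun U => cA B U j * cA B U k * cA B U l * GS B U i)

/-- The abstract one loop computation. -/
def S_ABS : Prop :=
  ∃ (C : ℝ) (K : ℕ), 0 < C ∧ ∀ {Ω ι : Type} [TopologicalSpace Ω] [CompactSpace Ω]
    [MeasurableSpace Ω] [OpensMeasurableSpace Ω] (P : Measure Ω) [IsProbabilityMeasure P]
    [Fintype ι] [DecidableEq ι] (H Q R : Matrix ι ι ℝ) (A g : ι → Ω → ℝ) (dA : ι → ι → Ω → ℝ)
    (r s1 s2 : Ω → ℝ) (β M m s0 : ℝ),
    (∀ i, Continuous (A i)) → (∀ i, Continuous (g i)) → (∀ i j, Continuous (dA i j)) →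
    Continuous r → Continuous s1 → Continuous s2 →
    1 ≤ β → 1 ≤ M → 1 ≤ m → ((Fintype.card ι : ℕ) : ℝ) ≤ M → IsUnit (det H) → Hᵀ = H →
    (∀ i j, |H⁻¹ i j| ≤ M) → (∀ i j, |Q i j| ≤ M) → (∀ i j, |R i j| ≤ M) → Qᵀ = Q → Rᵀ = R →
    (∀ x, 0 ≤ r x) → (∀ p : ℕ, p ≤ 8 → ∫ x, r x ^ p ∂P ≤ Real.sqrt (m / β) ^ p) →
    (∀ i x, |A i x| ≤ r x) → (∀ i x, |g i x - ∑ j, H i j * A j x| ≤ M * r x ^ 2) →
    (∀ i j x, |dA i j x - (if i = j then 1 else 0)| ≤ M * r x) →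
    (∀ i j, ∫ x, dA i j x ∂P = β * ∫ x, A j x * g i x ∂P) →
    (∀ i j k l, ∫ x, (dA i j x * A k x * A l x + A j x * dA i k x * A l x +
      A j x * A k x * dA i l x) ∂P = β * ∫ x, A j x * A k x * A l x * g i x ∂P) →
    (∀ x, |s1 x - 1 / 2 * ∑ i, ∑ j, Q i j * (A i x * A j x)| ≤ M * r x ^ 3) →
    (∀ x, |s2 x - s0 - 1 / 2 * ∑ i, ∑ j, R i j * (A i x * A j x)| ≤ M * r x ^ 3) →
    |β * ∫ x, s2 x ∂P - β ^ 2 * (∫ x, s1 x ^ 2 ∂P - (∫ x, s1 x ∂P) ^ 2) -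
      (β * s0 + 1 / 2 * trace (H⁻¹ * R) - 1 / 2 * trace (H⁻¹ * Q * (H⁻¹ * Q)))| ≤
      C * (M * m) ^ K / Real.sqrt β


end Pool.Agent.Y16.AF
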