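import Mathlib
import Pool.Agent.H906R3.YM.Conc
import Pool.Agent.Y16.AF.StmP

open MeasureTheory Matrix
open scoped Matrix.Norms.Frobenius Topology
open Pool.Agent.Y16.Gluon
open Pool.Agent.H906R3

namespace Pool.Agent.Y16.AF

set_option linter.unusedSectionVars false

variable {N n L : ℕ} {G : Subgroup (UU N)}

lemma compactG (hG : IsClosed (G : Set (UU N))) : CompactSpace G :=
  isCompact_iff_compactSpace.1 (IsClosed.isCompact (X := UU N) hG)

lemma scG : SecondCountableTopology G := by
  have h00 : SecondCountableTopology (UU N) := TopologicalSpace.Subtype.secondCountableTopology _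
  exact TopologicalSpace.Subtype.secondCountableTopology _

lemma mt_cont : Continuous (mt : G → Mt N) := continuous_subtype_val.comp continuous_subtype_val

lemma fx_cont : Continuous (fx : (Links L → G) → Links L → G) := by
  refine continuous_pi fun w => ?_
  by_cases h : dyn w
  · simp only [fx, h, if_true]; exact continuous_apply w
  · simp only [fx, h, if_false]; exact continuous_const

lemma lg_cont (p : Pq L) (i : Fin 4) : Continuous fun U : Links L → G => lg (fx U) p i := by
  unfold lg
  cases h : lv p.2.1 p.2.2 i with
  | none => exact continuous_const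
  | some a =>
    have h2 : Continuous fun U : Links L → G => (fx U) (p.1 + ls p.2.2 i, a) :=
      (continuous_apply (p.1 + ls p.2.2 i, a)).comp fx_cont
    by_cases hb : sb p.2.2 i = true
    · simpa only [hb, if_true] using h2
    · rw [Bool.not_eq_true] at hb
      have h3 : Continuous fun U : Links L → G => ((fx U) (p.1 + ls p.2.2 i, a))⁻¹ := h2.inv
      simpa only [hb, Bool.false_eq_true, if_false] using h3

lemma mlg_cont (p : Pq L) (i : Fin 4) : Continuous fun U : Links L → G => mt (lg (fx U) p i) :=
  mt_cont.comp (lg_cont p i)

lemma re_tr_cont {X : Type*} [TopologicalSpace X] {f : X → Mt N} (hf : Continuous f) :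
    Continuous fun x => (trace (f x)).re :=
  Complex.continuous_re.comp (Continuous.matrix_trace hf)

variable [NeZero L]

lemma S0_cont : Continuous (S0 : (Links L → G) → ℝ) := by
  unfold S0
  refine continuous_finsetSum _ fun p _ => re_tr_cont (continuous_const.sub ?_)
  exact mt_cont.comp ((((lg_cont p 0).mul (lg_cont p 1)).mul (lg_cont p 2)).mul (lg_cont p 3))

lemma S1_cont (T : Mt N) : Continuous (S1 T : (Links L → G) → ℝ) := by
  unfold S1 D1
  refine continuous_finsetSum _ fun p _ => ?_
  have h0 := mlg_cont (G := G) p 0
  have h1 := mlg_cont (G := G) p 1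
  have h2 := mlg_cont (G := G) p 2
  have h3 := mlg_cont (G := G) p 3
  refine ((continuous_const.mul (re_tr_cont (continuous_const.mul
    (((h0.mul h1).mul h2).mul h3)))).add (continuous_const.mul (re_tr_cont ?_))).neg
  exact ((continuous_const.mul h0).sub (h0.mul continuous_const)).mul ((h1.mul h2).mul h3)

lemma S2_cont (T : Mt N) : Continuous (S2 T : (Links L → G) → ℝ) := by
  unfold S2 D2
  refine continuous_finsetSum _ fun p _ => ?_
  have h0 := mlg_cont (G := G) p 0
  have h1 := mlg_cont (G := G) p 1
  have h2 := mlg_cont (G := G) p 2
  have h3 := mlg_cont (G := G) p 3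
  have hc : Continuous fun U : Links L → G =>
      T * mt (lg (fx U) p 0) - mt (lg (fx U) p 0) * T :=
    (continuous_const.mul h0).sub (h0.mul continuous_const)
  refine (((continuous_const.mul (re_tr_cont (continuous_const.mul
    (((h0.mul h1).mul h2).mul h3)))).add (continuous_const.mul (re_tr_cont ?_))).add
    (continuous_const.mul (re_tr_cont ?_))).neg
  · exact (continuous_const.mul hc).mul ((h1.mul h2).mul h3)
  · exact ((continuous_const.mul hc).sub (hc.mul continuous_const)).mul ((h1.mul h2).mul h3)

lemma cA_cont (B : LieBasis G n) (i : Dy L × Fin n) : Continuous fun U : Links L → G =>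
    cA B U i := by
  unfold cA co
  exact re_tr_cont (continuous_const.mul (mt_cont.comp (continuous_apply _)))

lemma dA_cont (B : LieBasis G n) (i j : Dy L × Fin n) : Continuous fun U : Links L → G =>
    dA B U i j := by
  unfold dA
  by_cases h : i.1 = j.1
  · simp only [h, if_true]
    exact re_tr_cont (continuous_const.mul (continuous_const.mul
      (mt_cont.comp (continuous_apply _))))
  · simp only [h, if_false]; exact continuous_const

lemma rr_cont : Continuous (rr : (Links L → G) → ℝ) := by
  unfold rr
  refine continuous_finsetSum _ fun w _ => ?_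
  have h1 : Continuous fun U : Links L → G => mt (U w.1) := mt_cont.comp (continuous_apply w.1)
  exact (h1.sub continuous_const).norm

lemma dl_cont (B : LieBasis G n) (p : Pq L) (i : Fin 4) (a : Fin n) :
    Continuous fun U : Links L → G => dl B U p i a := by
  unfold dl
  split_ifs
  · exact continuous_const.mul (mlg_cont p i)
  · exact ((mlg_cont p i).mul continuous_const).neg

lemma GS_cont (B : LieBasis G n) (i : Dy L × Fin n) : Continuous fun U : Links L → G =>
    GS B U i := by
  unfold GS
  refine continuous_finsetSum _ fun p _ => continuous_finsetSum _ fun l _ => ?_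
  have hh : ∀ m : Fin 4, Continuous fun U : Links L → G =>
      (if l = m then dl B U p m i.2 else mt (lg (fx U) p m)) := by
    intro m
    by_cases h : l = m
    · simpa only [h, if_true] using dl_cont B p m i.2
    · simpa only [h, if_false] using mlg_cont p m
  have h4 : Continuous fun U : Links L → G =>
      -(trace ((if l = 0 then dl B U p 0 i.2 else mt (lg (fx U) p 0)) *
        (if l = 1 then dl B U p 1 i.2 else mt (lg (fx U) p 1)) *
        (if l = 2 then dl B U p 2 i.2 else mt (lg (fx U) p 2)) *
        (if l = 3 then dl B U p 3 i.2 else mt (lg (fx U) p 3)))).re :=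
    (re_tr_cont ((((hh 0).mul (hh 1)).mul (hh 2)).mul (hh 3))).neg
  by_cases hc : lv p.2.1 p.2.2 l = some i.1.1.2 ∧ p.1 + ls p.2.2 l = i.1.1.1
  · simpa only [if_pos hc] using h4
  · simpa only [if_neg hc] using continuous_const

/-! ### the probability measure -/

section meas

variable [CompactSpace G] [SecondCountableTopology G] [MeasurableSpace G] [BorelSpace G]
  (μ : Measure G) [IsProbabilityMeasure μ]

/-- The Gibbs measure. -/
noncomputable def PP (L : ℕ) [NeZero L] (β : ℝ) : Measure (Links L → G) :=
  (Measure.pi fun _ => μ).tilted fun U => -(β * S0 U)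

lemma exp_int (β : ℝ) : Integrable (fun U : Links L → G => Real.exp (-(β * S0 U)))
    (Measure.pi fun _ => μ) :=
  (Real.continuous_exp.comp (continuous_const.mul S0_cont).neg).integrable_of_hasCompactSupport
    (HasCompactSupport.of_compactSpace _)

instance (β : ℝ) : IsProbabilityMeasure (PP μ L β) :=
  isProbabilityMeasure_tilted (exp_int μ β)

lemma EX_eq (β : ℝ) (F : (Links L → G) → ℝ) : EX μ β F = ∫ U, F U ∂(PP μ L β) := by
  unfold EX PP
  rw [integral_tilted, ← integral_div]
  refine integral_congr_ae (Filter.Eventually.of_forall fun U => ?_)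
  simp only [smul_eq_mul]
  ring

end meas

end Pool.Agent.Y16.AF
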