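import Mathlib
import Pool.Agent.H906R3.YM.Conc
import Pool.Agent.Y274.YMTan
import Pool.Agent.Y16.AF.Defs

open MeasureTheory Matrix
open scoped Matrix.Norms.Frobenius Topology
open Pool.Agent.Y16.Gluon
open Pool.Agent.H906R3

namespace Pool.Agent.Y16.AF

set_option linter.unusedSectionVars false

variable {N n L : ℕ} {G : Subgroup (UU N)} {T : Mt N} {e : ℝ → G}

/-- The same data in the form used by the helper files. -/
def fr (B : LieBasis G n) : YM.Frame G n where
  X := B.X
  ex := B.ex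
  ex_eq := B.ex_eq
  orth := B.orth
  full := B.full

lemma skX (B : LieBasis G n) (a : Fin n) : (B.X a)ᴴ = -B.X a := (fr B).skewX a

lemma T_mem (B : LieBasis G n) (he : ∀ t, mt (e t) = NormedSpace.exp (t • T)) :
    T ∈ Submodule.span ℝ (Set.range B.X) := B.full T fun t => ⟨e t, he t⟩

lemma expand (B : LieBasis G n) {Y : Mt N} (hY : Y ∈ Submodule.span ℝ (Set.range B.X)) :
    Y = ∑ a, (trace ((B.X a)ᴴ * Y)).re • B.X a := by
  have h := Pool.Agent.Y274.YMTan.P_span B.X B.orth Y hY
  rw [Pool.Agent.Y274.YMTan.P_apply] at h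
  exact h.symm

lemma brT (B : LieBasis G n) (hT : T ∈ Submodule.span ℝ (Set.range B.X)) (b : Fin n) :
    T * B.X b - B.X b * T ∈ Submodule.span ℝ (Set.range B.X) := by
  induction hT using Submodule.span_induction with
  | mem x hx =>
    obtain ⟨a, rfl⟩ := hx
    exact (fr B).brk_mem a b
  | zero => simp
  | add x y _ _ hx hy =>
    have : (x + y) * B.X b - B.X b * (x + y) = (x * B.X b - B.X b * x) +
        (y * B.X b - B.X b * y) := by noncomm_ring
    rw [this]; exact Submodule.add_mem _ hx hy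
  | smul c x _ hx =>
    have : (c • x) * B.X b - B.X b * (c • x) = c • (x * B.X b - B.X b * x) := by
      rw [smul_mul_assoc, mul_smul_comm, smul_sub]
    rw [this]; exact Submodule.smul_mem _ _ hx

lemma frob_sq (Y : Mt N) : ‖Y‖ ^ 2 = (trace (Yᴴ * Y)).re := by
  rw [Matrix.frobenius_norm_def, ← Real.sqrt_eq_rpow, Real.sq_sqrt (by positivity)]
  rw [Matrix.trace, Complex.re_sum]
  rw [Finset.sum_comm]
  refine Finset.sum_congr rfl fun j _ => ?_
  rw [Matrix.diag_apply, Matrix.mul_apply, Complex.re_sum]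
  refine Finset.sum_congr rfl fun i _ => ?_
  rw [Matrix.conjTranspose_apply, Complex.star_def, ← Complex.normSq_eq_conj_mul_self,
    Complex.ofReal_re, Complex.normSq_eq_norm_sq]
  norm_cast

lemma frob_span (B : LieBasis G n) {Y : Mt N} (hY : Y ∈ Submodule.span ℝ (Set.range B.X)) :
    ‖Y‖ ^ 2 = ∑ a, ((trace ((B.X a)ᴴ * Y)).re) ^ 2 := by
  rw [frob_sq]
  have h := expand B hY
  have h2 : (trace (Yᴴ * Y)).re = ∑ a, (trace ((B.X a)ᴴ * Y)).re * (trace ((B.X a)ᴴ * Y)).re := by
    conv_lhs => rw [h]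
    rw [Matrix.conjTranspose_sum, Finset.sum_mul, Matrix.trace_sum, Complex.re_sum]
    refine Finset.sum_congr rfl fun a _ => ?_
    rw [Matrix.conjTranspose_smul, smul_mul_assoc, Matrix.trace_smul]
    rw [← h]
    simp
  rw [h2]
  exact Finset.sum_congr rfl fun a _ => (sq _).symm

lemma J_anti (B : LieBasis G n) (T : Mt N) : (Jm B T)ᵀ = -(Jm B T) := by
  ext a b
  simp only [Matrix.transpose_apply, Matrix.neg_apply, Jm, Matrix.of_apply, skX]
  rw [← Complex.neg_re]
  congr 1
  have h1 : trace (B.X b * B.X a * T) = trace (B.X a * T * B.X b) := by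
    rw [Matrix.trace_mul_cycle, Matrix.trace_mul_cycle]
  have h2 : trace (B.X b * T * B.X a) = trace (B.X a * B.X b * T) := by
    rw [Matrix.trace_mul_cycle]
  simp only [neg_mul, Matrix.mul_sub, ← mul_assoc, Matrix.trace_neg, Matrix.trace_sub]
  rw [h1, h2]
  ring

lemma kap_eq (B : LieBasis G n) (hT : T ∈ Submodule.span ℝ (Set.range B.X)) :
    kap B T = -trace (Jm B T * Jm B T) := by
  have h1 : kap B T = ∑ b, ∑ a, Jm B T a b ^ 2 := by
    unfold kap
    refine Finset.sum_congr rfl fun b _ => ?_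
    rw [frob_span B (brT B hT b)]
    rfl
  have h2 : ∀ a b, Jm B T b a = -Jm B T a b := fun a b => by
    have := congrFun (congrFun (J_anti B T) a) b
    simpa using this
  rw [h1, Matrix.trace, ← Finset.sum_neg_distrib]
  refine Finset.sum_congr rfl fun b _ => ?_
  rw [Matrix.diag_apply, Matrix.mul_apply, ← Finset.sum_neg_distrib]
  refine Finset.sum_congr rfl fun a _ => ?_
  rw [h2 a b]
  ring

lemma JJ_symm (B : LieBasis G n) (T : Mt N) : (Jm B T * Jm B T)ᵀ = Jm B T * Jm B T := by
  rw [Matrix.transpose_mul, J_anti, neg_mul_neg]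

lemma eM_symm (B : LieBasis G n) (T : Mt N) : (eM B T)ᵀ = eM B T := by
  ext a b
  simp only [Matrix.transpose_apply, eM, Matrix.of_apply]
  have h := congrFun (congrFun (JJ_symm B T) a) b
  rw [Matrix.transpose_apply] at h
  rw [h, add_comm (B.X b * B.X a)]

end Pool.Agent.Y16.AF
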