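import Mathlib
import Pool.Agent.Y16.AF.StmA
import Pool.Agent.Y16.AF.Prob1
import Pool.Agent.Y16.AF.Prob2

open MeasureTheory Matrix
open scoped Matrix.Norms.Frobenius Topology Kronecker
open Pool.Agent.Y16.Gluon
open Pool.Agent.H906R3

namespace Pool.Agent.Y16.AF

set_option linter.unusedSectionVars false

/-! ### elementary estimates -/

lemma log_pow_le (K : ℕ) (hK : 1 ≤ K) {β : ℝ} (hβ : 1 ≤ β) :
    Real.log β ^ K ≤ (4 * K) ^ K * β ^ (1 / 4 : ℝ) := by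
  have hK0 : (0 : ℝ) < K := by exact_mod_cast hK
  have h1 : Real.log β ≤ β ^ (1 / (4 * K) : ℝ) / (1 / (4 * K)) :=
    Real.log_le_rpow_div (by linarith) (by positivity)
  have h0 : 0 ≤ Real.log β := Real.log_nonneg hβ
  have h2 : Real.log β ^ K ≤ (4 * K * β ^ (1 / (4 * K) : ℝ)) ^ K := by
    refine pow_le_pow_left₀ h0 (h1.trans (le_of_eq ?_)) K
    field_simp
  refine h2.trans (le_of_eq ?_)
  rw [mul_pow, ← Real.rpow_natCast (β ^ (1 / (4 * K) : ℝ)), ← Real.rpow_mul (by linarith)]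
  congr 2
  field_simp

lemma err_le (K : ℕ) (hK : 1 ≤ K) {A : ℝ} (hA : 0 ≤ A) {L : ℕ} (hL : 1 ≤ L) {β : ℝ}
    (hβ : 1 ≤ β) (hβL : (L : ℝ) ^ (80 * K) ≤ β) :
    (A * (L : ℝ) ^ 20 * Real.log β) ^ K / Real.sqrt β ≤ (A * (4 * K)) ^ K := by
  have h0 : 0 ≤ Real.log β := Real.log_nonneg hβ
  have hβ0 : 0 < β := by linarith
  have hL1 : (1 : ℝ) ≤ L := by exact_mod_cast hL
  have h1 : ((L : ℝ) ^ 20) ^ K ≤ β ^ (1 / 4 : ℝ) := by
    have : ((L : ℝ) ^ 20) ^ K = ((L : ℝ) ^ (80 * K)) ^ (1 / 4 : ℝ) := by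
      rw [← pow_mul, ← Real.rpow_natCast, ← Real.rpow_natCast, ← Real.rpow_mul (by linarith)]
      congr 1
      push_cast
      ring
    rw [this]
    exact Real.rpow_le_rpow (by positivity) hβL (by norm_num)
  have h2 := log_pow_le K hK hβ
  have hs : Real.sqrt β = β ^ (1 / 4 : ℝ) * β ^ (1 / 4 : ℝ) := by
    rw [← Real.rpow_add hβ0, Real.sqrt_eq_rpow]; norm_num
  rw [div_le_iff₀ (Real.sqrt_pos.2 hβ0), hs, mul_pow, mul_pow, mul_pow]
  have h3 : 0 ≤ β ^ (1 / 4 : ℝ) := Real.rpow_nonneg hβ0.le _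
  calc A ^ K * ((L : ℝ) ^ 20) ^ K * Real.log β ^ K
      ≤ A ^ K * β ^ (1 / 4 : ℝ) * ((4 * K) ^ K * β ^ (1 / 4 : ℝ)) := by
        refine mul_le_mul (mul_le_mul_of_nonneg_left h1 (pow_nonneg hA K)) h2
          (pow_nonneg h0 K) (mul_nonneg (pow_nonneg hA K) h3)
    _ = _ := by ring

/-! ### Kronecker products -/

section kron

variable {N n L : ℕ} [NeZero L] {G : Subgroup (UU N)}

instance decDy (L n : ℕ) : DecidableEq (Dy L × Fin n) := instDecidableEqProd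

/-- The full Hessian. -/
noncomputable def HH (L n : ℕ) [NeZero L] : Matrix (Dy L × Fin n) (Dy L × Fin n) ℝ :=
  rs (Hm (L := L)) ⊗ₖ (1 : Matrix (Fin n) (Fin n) ℝ)

noncomputable def QQ (L : ℕ) [NeZero L] (B : LieBasis G n) (T : Mt N) :
    Matrix (Dy L × Fin n) (Dy L × Fin n) ℝ := rs (Qm (L := L)) ⊗ₖ Jm B T

noncomputable def RR (L : ℕ) [NeZero L] (B : LieBasis G n) (T : Mt N) :
    Matrix (Dy L × Fin n) (Dy L × Fin n) ℝ :=
  rs (Rm (L := L)) ⊗ₖ (-(Jm B T * Jm B T)) +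
    (1 / (L : ℝ) ^ 4) • (rs (H01 (L := L)) ⊗ₖ eM B T)

lemma HH_inv : (HH L n)⁻¹ = (rs (Hm (L := L)))⁻¹ ⊗ₖ (1 : Matrix (Fin n) (Fin n) ℝ) := by
  rw [HH, Matrix.inv_kronecker, inv_one]

lemma HH_det (h : (rs (Hm (L := L))).PosDef) : IsUnit (det (HH L n)) := by
  rw [HH, Matrix.det_kronecker, det_one, one_pow, mul_one]
  exact (isUnit_iff_ne_zero.2 h.det_pos.ne').pow _

lemma trQ (B : LieBasis G n) (T : Mt N) :
    trace ((HH L n)⁻¹ * QQ L B T * ((HH L n)⁻¹ * QQ L B T)) =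
      trace ((rs (Hm (L := L)))⁻¹ * rs (Qm (L := L)) *
        ((rs (Hm (L := L)))⁻¹ * rs (Qm (L := L)))) * trace (Jm B T * Jm B T) := by
  rw [HH_inv, QQ, ← Matrix.mul_kronecker_mul, one_mul, ← Matrix.mul_kronecker_mul,
    Matrix.trace_kronecker]

lemma trR (B : LieBasis G n) (T : Mt N) :
    trace ((HH L n)⁻¹ * RR L B T) =
      -(trace ((rs (Hm (L := L)))⁻¹ * rs (Rm (L := L))) * trace (Jm B T * Jm B T)) +
        1 / (L : ℝ) ^ 4 * (trace ((rs (Hm (L := L)))⁻¹ * rs (H01 (L := L))) * trace (eM B T)) := by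
  rw [HH_inv, RR, Matrix.mul_add, ← Matrix.mul_kronecker_mul, one_mul, Matrix.mul_smul,
    ← Matrix.mul_kronecker_mul, one_mul, Matrix.trace_add, Matrix.trace_smul,
    Matrix.trace_kronecker, Matrix.trace_kronecker, Matrix.trace_neg, smul_eq_mul]
  ring

end kron

end Pool.Agent.Y16.AF
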