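import Mathlib
import Pool.Agent.Y16.AF.Prob3

open MeasureTheory Matrix
open scoped Matrix.Norms.Frobenius Topology Kronecker
open Pool.Agent.Y16.Gluon
open Pool.Agent.H906R3

namespace Pool.Agent.Y16.AF

set_option linter.unusedSectionVars false

variable {N n L : ℕ} [NeZero L] {G : Subgroup (UU N)}

lemma HH_mul (f : Dy L × Fin n → ℝ) (i : Dy L × Fin n) :
    ∑ j, HH L n i j * f j = ∑ w : Dy L, rs (Hm (L := L)) i.1 w * f (w, i.2) := by
  rw [Fintype.sum_prod_type]
  refine Finset.sum_congr rfl fun w _ => ?_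
  rw [Finset.sum_eq_single i.2]
  · show rs (Hm (L := L)) i.1 w * (1 : Matrix (Fin n) (Fin n) ℝ) i.2 i.2 * f (w, i.2) = _
    rw [Matrix.one_apply_eq, mul_one]
  · intro b _ hb
    show rs (Hm (L := L)) i.1 w * (1 : Matrix (Fin n) (Fin n) ℝ) i.2 b * f (w, b) = 0
    rw [Matrix.one_apply_ne hb.symm, mul_zero, zero_mul]
  · intro h; exact absurd (Finset.mem_univ _) h

lemma rr_nonneg (U : Links L → G) : 0 ≤ rr U := Finset.sum_nonneg fun _ _ => norm_nonneg _

/-- The sum of the absolute values of the entries. -/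
noncomputable def sab (M : Matrix (Fin n) (Fin n) ℝ) : ℝ := ∑ a, ∑ b, |M a b|

lemma le_sab (M : Matrix (Fin n) (Fin n) ℝ) (a b : Fin n) : |M a b| ≤ sab M := by
  unfold sab
  have h1 : |M a b| ≤ ∑ b, |M a b| :=
    Finset.single_le_sum (f := fun b => |M a b|) (fun _ _ => abs_nonneg _) (Finset.mem_univ b)
  have h2 : ∑ b, |M a b| ≤ ∑ a, ∑ b, |M a b| :=
    Finset.single_le_sum (f := fun a => ∑ b, |M a b|)
      (fun _ _ => Finset.sum_nonneg fun _ _ => abs_nonneg _) (Finset.mem_univ a)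
  exact h1.trans h2

lemma sab_nonneg (M : Matrix (Fin n) (Fin n) ℝ) : 0 ≤ sab M :=
  Finset.sum_nonneg fun _ _ => Finset.sum_nonneg fun _ _ => abs_nonneg _

lemma final_arith {V c0 κ X Y W ℓ t E Cc l : ℝ} (hl : 0 < l)
    (h1 : |V - (c0 + 1 / 2 * (-(X * -κ) + 1 / l ^ 4 * (W * t)) - 1 / 2 * (Y * -κ))| ≤ E)
    (h2 : |X + Y + 11 / (12 * Real.pi ^ 2) * ℓ| ≤ Cc) (h3 : 0 ≤ W) (h4 : W ≤ 4 * l ^ 4) :
    |V - (c0 - 11 / (24 * Real.pi ^ 2) * κ * ℓ)| ≤ E + 1 / 2 * (|κ| * Cc) + 2 * |t| := by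
  have e1 : V - (c0 - 11 / (24 * Real.pi ^ 2) * κ * ℓ) =
      (V - (c0 + 1 / 2 * (-(X * -κ) + 1 / l ^ 4 * (W * t)) - 1 / 2 * (Y * -κ))) +
      1 / 2 * (κ * (X + Y + 11 / (12 * Real.pi ^ 2) * ℓ)) + 1 / 2 * (1 / l ^ 4 * W) * t := by
    have h5 : 11 / (24 * Real.pi ^ 2) = 1 / 2 * (11 / (12 * Real.pi ^ 2)) := by
      have hpi : Real.pi ≠ 0 := Real.pi_ne_zero
      field_simp
      norm_num
    rw [h5]
    ring
  rw [e1]
  have b1 : |1 / 2 * (κ * (X + Y + 11 / (12 * Real.pi ^ 2) * ℓ))| ≤ 1 / 2 * (|κ| * Cc) := by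
    rw [abs_mul, abs_mul, abs_of_pos (by norm_num : (0 : ℝ) < 1 / 2)]
    exact mul_le_mul_of_nonneg_left (mul_le_mul_of_nonneg_left h2 (abs_nonneg _)) (by norm_num)
  have b2 : |1 / 2 * (1 / l ^ 4 * W) * t| ≤ 2 * |t| := by
    rw [abs_mul]
    refine mul_le_mul_of_nonneg_right ?_ (abs_nonneg _)
    rw [abs_of_nonneg (by positivity)]
    have : 1 / l ^ 4 * W ≤ 4 := by
      rw [div_mul_eq_mul_div, one_mul, div_le_iff₀ (by positivity)]
      exact h4
    linarith
  refine (abs_add_three _ _ _).trans ?_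
  linarith

set_option maxHeartbeats 4000000 in
/-- **The main theorem**, from the statements of the helper files. -/
theorem main_of (hgauge : S_GAUGE) (hdiff : S_DIFF) (hball : S_BALL) (hcoer : S_COER)
    (hmom : S_MOM) (htay1 : S_TAY1) (htay2 : S_TAY2) (htayg : S_TAYG) (hibp : S_IBP)
    (habs : S_ABS) (hhpd : S_HPD) (hcoef : C_COEF)
    {N n : ℕ} (G : Subgroup (UU N)) (hG : IsClosed (G : Set (UU N))) [MeasurableSpace G]
    [BorelSpace G] (μ : Measure G) [IsProbabilityMeasure μ] [μ.IsHaarMeasure] (B : LieBasis G n)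
    (T : Mt N) (e : ℝ → G) (he : ∀ t, mt (e t) = NormedSpace.exp (t • T)) :
    ∃ (C : ℝ) (K : ℕ), ∀ (L : ℕ) [NeZero L], 2 ≤ L → ∀ β : ℝ, (L : ℝ) ^ K ≤ β →
      |invCoupling μ e L β -
        (β * ‖T‖ ^ 2 - 11 / (24 * Real.pi ^ 2) * kap B T * Real.log L)| ≤ C := by
  have : CompactSpace G := compactG hG
  have : SecondCountableTopology G := scG
  obtain ⟨Cm, hCm1, hmom⟩ := hmom hball hcoer G hG μ
  obtain ⟨C1, htay1⟩ := htay1 G hG B T e he
  obtain ⟨C2, htay2⟩ := htay2 G hG B T e he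
  obtain ⟨C3, htayg⟩ := htayg G hG B
  obtain ⟨Ca, Ka, hCa, habs⟩ := habs
  obtain ⟨Cc, hcoef⟩ := hcoef
  have hT : T ∈ Submodule.span ℝ (Set.range B.X) := T_mem B he
  -- the constant M = C0 L^4
  set C0 : ℝ := 1 + 4 * n + 100 + 1000 * sab (Jm B T) + 1000 * sab (-(Jm B T * Jm B T)) +
    1000 * sab (eM B T) + |C1| + |C2| + |C3| with hC0
  have hs1 := sab_nonneg (Jm B T)
  have hs2 := sab_nonneg (-(Jm B T * Jm B T))
  have hs3 := sab_nonneg (eM B T)
  have hn0 : (0 : ℝ) ≤ n := Nat.cast_nonneg n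
  have hC01 : 1 ≤ C0 := by
    have := abs_nonneg C1; have := abs_nonneg C2; have := abs_nonneg C3
    rw [hC0]; linarith
  set K1 : ℕ := Ka + 1 with hK1
  have hCc0 : 0 ≤ Cc := (abs_nonneg _).trans (hcoef 2 le_rfl)
  refine ⟨Ca * (C0 * Cm * (4 * K1)) ^ K1 + 1 / 2 * (|kap B T| * Cc) + 2 * |trace (eM B T)|,
    80 * K1, fun L _ hL β hβL => ?_⟩
  have hL0 : (0 : ℝ) < L := by exact_mod_cast (by omega : 0 < L)
  have hL2 : (2 : ℝ) ≤ L := by exact_mod_cast hL
  have hL1 : (1 : ℝ) ≤ L := by linarith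
  have hL4 : (1 : ℝ) ≤ (L : ℝ) ^ 4 := one_le_pow₀ hL1
  have hβ3 : 3 ≤ β := by
    refine le_trans ?_ hβL
    calc (3 : ℝ) ≤ 2 ^ 2 := by norm_num
      _ ≤ (L : ℝ) ^ 2 := pow_le_pow_left₀ (by norm_num) hL2 2
      _ ≤ (L : ℝ) ^ (80 * K1) := pow_le_pow_right₀ hL1 (by omega)
  have hβ1 : 1 ≤ β := by linarith
  have hβ0 : 0 < β := by linarith
  have hlog1 : 1 ≤ Real.log β := by
    rw [Real.le_log_iff_exp_le hβ0]
    exact (Real.exp_one_lt_d9.le.trans (by norm_num)).trans hβ3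
  set M : ℝ := C0 * (L : ℝ) ^ 4 with hM
  set m : ℝ := Cm * (L : ℝ) ^ 16 * Real.log β with hm
  have hM1 : 1 ≤ M := one_le_mul_of_one_le_of_one_le hC01 hL4
  have hm1 : 1 ≤ m := one_le_mul_of_one_le_of_one_le
    (one_le_mul_of_one_le_of_one_le hCm1 (one_le_pow₀ hL1)) hlog1
  obtain ⟨hpd, hinv, htr0, htr1, hent, hcard, hHt, hQt, hRt, h01t⟩ := hhpd L hL
  obtain ⟨hib1, hib3⟩ := hibp G hG μ B L hL β
  have hC1M : |C1| * (L : ℝ) ^ 4 ≤ M := by
    refine mul_le_mul_of_nonneg_right ?_ (by positivity)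
    have := abs_nonneg C2; have := abs_nonneg C3; have := abs_nonneg C1
    rw [hC0]; linarith
  have hC2M : |C2| * (L : ℝ) ^ 4 ≤ M := by
    refine mul_le_mul_of_nonneg_right ?_ (by positivity)
    have := abs_nonneg C2; have := abs_nonneg C3; have := abs_nonneg C1
    rw [hC0]; linarith
  have hC3M : |C3| * (L : ℝ) ^ 4 ≤ M := by
    refine mul_le_mul_of_nonneg_right ?_ (by positivity)
    have := abs_nonneg C2; have := abs_nonneg C3; have := abs_nonneg C1
    rw [hC0]; linarith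
  have hX := habs (PP μ L β) (HH L n) (QQ L B T) (RR L B T)
    (fun i U => cA B U i) (fun i U => GS B U i) (fun i j U => dA B U i j)
    rr (S1 T) (S2 T) β M m (‖T‖ ^ 2)
    (cA_cont B) (GS_cont B) (dA_cont B) rr_cont (S1_cont T) (S2_cont T) hβ1 hM1 hm1
    (by
      rw [Fintype.card_prod, Fintype.card_fin]
      push_cast
      calc ((Fintype.card (Dy L) : ℕ) : ℝ) * n ≤ 4 * (L : ℝ) ^ 4 * n :=
            mul_le_mul_of_nonneg_right hcard hn0
        _ = 4 * n * (L : ℝ) ^ 4 := by ring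
        _ ≤ M := by
          refine mul_le_mul_of_nonneg_right ?_ (by positivity)
          have := abs_nonneg C2; have := abs_nonneg C3; have := abs_nonneg C1
          rw [hC0]; linarith)
    (HH_det hpd)
    (by rw [HH, ← Matrix.kroneckerMap_transpose, hHt, transpose_one])
    (by
      intro i j
      rw [HH_inv]
      show |(rs (Hm (L := L)))⁻¹ i.1 j.1 * (1 : Matrix (Fin n) (Fin n) ℝ) i.2 j.2| ≤ M
      rw [abs_mul]
      have h1 : |(1 : Matrix (Fin n) (Fin n) ℝ) i.2 j.2| ≤ 1 := by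
        rw [Matrix.one_apply]; split_ifs <;> simp
      calc _ ≤ 100 * (L : ℝ) ^ 4 * 1 := mul_le_mul (hinv _ _) h1 (abs_nonneg _) (by positivity)
        _ ≤ M := by
          rw [mul_one]
          refine mul_le_mul_of_nonneg_right ?_ (by positivity)
          have := abs_nonneg C2; have := abs_nonneg C3; have := abs_nonneg C1
          rw [hC0]; linarith)
    (by
      intro i j
      show |rs (Qm (L := L)) i.1 j.1 * Jm B T i.2 j.2| ≤ M
      rw [abs_mul]
      calc _ ≤ 1000 * (L : ℝ) ^ 4 * sab (Jm B T) :=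
            mul_le_mul (hent _ _).2.1 (le_sab _ _ _) (abs_nonneg _) (by positivity)
        _ = 1000 * sab (Jm B T) * (L : ℝ) ^ 4 := by ring
        _ ≤ M := by
          refine mul_le_mul_of_nonneg_right ?_ (by positivity)
          have := abs_nonneg C2; have := abs_nonneg C3; have := abs_nonneg C1
          rw [hC0]; linarith)
    (by
      intro i j
      show |rs (Rm (L := L)) i.1 j.1 * (-(Jm B T * Jm B T)) i.2 j.2 +
        (1 / (L : ℝ) ^ 4) * (rs (H01 (L := L)) i.1 j.1 * eM B T i.2 j.2)| ≤ M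
      refine (abs_add_le _ _).trans ?_
      rw [abs_mul, abs_mul, abs_mul, abs_of_nonneg (by positivity : (0 : ℝ) ≤ 1 / (L : ℝ) ^ 4)]
      have h1 : |rs (Rm (L := L)) i.1 j.1| * |(-(Jm B T * Jm B T)) i.2 j.2| ≤
          1000 * (L : ℝ) ^ 4 * sab (-(Jm B T * Jm B T)) :=
        mul_le_mul (hent _ _).2.2.1 (le_sab _ _ _) (abs_nonneg _) (by positivity)
      have h2 : |rs (H01 (L := L)) i.1 j.1| * |eM B T i.2 j.2| ≤
          1000 * (L : ℝ) ^ 4 * sab (eM B T) :=
        mul_le_mul (hent _ _).2.2.2 (le_sab _ _ _) (abs_nonneg _) (by positivity)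
      have h3 : 1 / (L : ℝ) ^ 4 * (|rs (H01 (L := L)) i.1 j.1| * |eM B T i.2 j.2|) ≤
          1 * (1000 * (L : ℝ) ^ 4 * sab (eM B T)) := by
        refine mul_le_mul ?_ h2 (mul_nonneg (abs_nonneg _) (abs_nonneg _)) zero_le_one
        rw [div_le_one (by positivity)]; exact hL4
      have h5 : (1000 * sab (-(Jm B T * Jm B T)) + 1000 * sab (eM B T)) * (L : ℝ) ^ 4 ≤ M := by
        refine mul_le_mul_of_nonneg_right ?_ (by positivity)
        have := abs_nonneg C2; have := abs_nonneg C3; have := abs_nonneg C1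
        rw [hC0]; linarith
      have h4 : 1000 * (L : ℝ) ^ 4 * sab (-(Jm B T * Jm B T)) +
          1 * (1000 * (L : ℝ) ^ 4 * sab (eM B T)) =
          (1000 * sab (-(Jm B T * Jm B T)) + 1000 * sab (eM B T)) * (L : ℝ) ^ 4 := by ring
      linarith)
    (by rw [QQ, ← Matrix.kroneckerMap_transpose, hQt, J_anti]
        ext i j
        show -rs (Qm (L := L)) i.1 j.1 * -(Jm B T i.2 j.2) =
          rs (Qm (L := L)) i.1 j.1 * Jm B T i.2 j.2
        ring)
    (by rw [RR, Matrix.transpose_add, Matrix.transpose_smul, ← Matrix.kroneckerMap_transpose,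
          ← Matrix.kroneckerMap_transpose, hRt, h01t, Matrix.transpose_neg, JJ_symm, eM_symm])
    rr_nonneg
    (by
      intro p hp
      have h1 := hmom L hL β hβ3 p hp
      rw [EX_eq] at h1
      exact h1)
    (fun i U => (htayg L hL U i).2.1)
    (by
      intro i U
      rw [HH_mul (fun j => cA B U j) i]
      refine ((htayg L hL U i).1).trans ?_
      refine mul_le_mul_of_nonneg_right (le_trans ?_ hC3M) (sq_nonneg _)
      exact mul_le_mul_of_nonneg_right (le_abs_self _) (by positivity))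
    (by
      intro i j U
      refine (((htayg L hL U i).2.2 j)).trans ?_
      refine mul_le_mul_of_nonneg_right (le_trans ?_ hC3M) (rr_nonneg U)
      calc C3 ≤ |C3| := le_abs_self _
        _ = |C3| * 1 := (mul_one _).symm
        _ ≤ |C3| * (L : ℝ) ^ 4 := mul_le_mul_of_nonneg_left hL4 (abs_nonneg _))
    (by
      intro i j
      have h1 := hib1 i j
      rw [EX_eq, EX_eq] at h1
      exact h1)
    (by
      intro i j k l
      have h1 := hib3 i j k l
      rw [EX_eq, EX_eq] at h1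
      exact h1)
    (by
      intro U
      refine (htay1 L hL U).trans ?_
      refine mul_le_mul_of_nonneg_right (le_trans ?_ hC1M) (pow_nonneg (rr_nonneg U) 3)
      exact mul_le_mul_of_nonneg_right (le_abs_self _) (by positivity))
    (by
      intro U
      have h1 := htay2 L hL U
      have h2 : ∀ i j : Dy L × Fin n, RR L B T i j =
          rs (Rm (L := L)) i.1 j.1 * (-(Jm B T * Jm B T)) i.2 j.2 +
          1 / (L : ℝ) ^ 4 * rs (H01 (L := L)) i.1 j.1 * eM B T i.2 j.2 := by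
        intro i j
        show rs (Rm (L := L)) i.1 j.1 * (-(Jm B T * Jm B T)) i.2 j.2 +
          (1 / (L : ℝ) ^ 4) * (rs (H01 (L := L)) i.1 j.1 * eM B T i.2 j.2) = _
        ring
      simp only [h2]
      refine h1.trans ?_
      refine mul_le_mul_of_nonneg_right (le_trans ?_ hC2M) (pow_nonneg (rr_nonneg U) 3)
      exact mul_le_mul_of_nonneg_right (le_abs_self _) (by positivity))
  -- the coupling
  have hI : invCoupling μ e L β = β * ∫ U, S2 T U ∂(PP μ L β) -
      β ^ 2 * (∫ U, S1 T U ^ 2 ∂(PP μ L β) - (∫ U, S1 T U ∂(PP μ L β)) ^ 2) := by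
    unfold invCoupling
    have h1 : (fun ε => -Real.log (Z μ e L β ε)) = fun ε => -Real.log
        (∫ U : Links L → G, Real.exp (-(β * Sg e ε U)) ∂(Measure.pi fun _ => μ)) := by
      funext ε
      rw [hgauge G hG μ T e he L hL β ε]
    rw [h1, hdiff G hG μ T e he L β, EX_eq, EX_eq, EX_eq]
  rw [← hI] at hX
  have herr : Ca * (M * m) ^ Ka / Real.sqrt β ≤ Ca * (C0 * Cm * (4 * K1)) ^ K1 := by
    have h1 : (M * m) ^ Ka ≤ (M * m) ^ K1 :=
      pow_le_pow_right₀ (one_le_mul_of_one_le_of_one_le hM1 hm1) (by omega)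
    have h2 : M * m = C0 * Cm * (L : ℝ) ^ 20 * Real.log β := by rw [hM, hm]; ring
    have h3 := err_le K1 (by omega) (A := C0 * Cm) (by positivity) (L := L) (by omega) hβ1 hβL
    rw [← h2] at h3
    have h4 : (M * m) ^ Ka / Real.sqrt β ≤ (M * m) ^ K1 / Real.sqrt β :=
      div_le_div_of_nonneg_right h1 (Real.sqrt_nonneg _)
    rw [mul_div_assoc]
    exact mul_le_mul_of_nonneg_left (h4.trans h3) hCa.le
  have hX2 := hX.trans herr
  rw [trQ, trR] at hX2
  have hk := kap_eq B hT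
  have hk2 : trace (Jm B T * Jm B T) = -kap B T := by rw [hk]; ring
  rw [hk2] at hX2
  exact final_arith hL0 hX2 (hcoef L hL) htr0 htr1

end Pool.Agent.Y16.AF
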