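import Mathlib
import Pool.Agent.Y16.AF.Prob4
import Pool.Agent.Y16.AF.Coef
import Pool.Agent.Y153.AF.LD2
import Pool.Agent.Y721.AF.Fp
import Pool.Agent.Y100.AF.Four
import Pool.Agent.Y141.AF.POS
import Pool.Agent.Y739.AF.Sym
import Pool.Agent.Y839.AF.Blk
import Pool.Agent.Y232.AF.K0
import Pool.Agent.Y255.AF.Hpd
import Pool.Agent.Y864.AF.Lnk
import Pool.Agent.Y901.AF.En
import Pool.Agent.Y48.AF.Trig
import Pool.Agent.Y427.AF.Spec2
import Pool.Agent.Y48.AF.GI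
import Pool.Agent.Y427.AF.Spr
import Pool.Agent.Y427.AF.Spy
import Pool.Agent.Y572.AF.Spw
import Pool.Agent.Y828.AF.Z3
import Pool.Agent.Y67.AF.Sums
import Pool.Agent.Y363.AF.Log
import Pool.Agent.Y352.AF.Asym
import Pool.Agent.Y614.AF.Ball
import Pool.Agent.Y352.AF.Coer
import Pool.Agent.Y421.AF.Mom
import Pool.Agent.Y781.AF.Gauge
import Pool.Agent.Y515.AF.Diff
import Pool.Agent.Y500.AF.Tay1b
import Pool.Agent.Y454.AF.Tay2
import Pool.Agent.Y349.AF.TayG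
import Pool.Agent.Y929.AF.Ibp
import Pool.Agent.Y220.AF.Abs

/-! # Assembly: the one loop running coupling of lattice Yang-Mills theory. -/

open MeasureTheory Matrix Filter
open scoped Matrix.Norms.Frobenius Topology
open Pool.Agent.Y16.Gluon

namespace Pool.Agent.Y16.AF

theorem c_hpd : S_HPD := Pool.Agent.Y255.AF.af_hpd

theorem c_pos : S_POS := Pool.Agent.Y141.AF.af_pos Pool.Agent.Y721.AF.af_fp
  Pool.Agent.Y100.AF.af_four

theorem c_sym : S_SYM := Pool.Agent.Y739.AF.af_sym Pool.Agent.Y721.AF.af_fp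

theorem c_ld2 : S_LD2 := Pool.Agent.Y153.AF.af_ld2

theorem c_blk : S_BLK := Pool.Agent.Y839.AF.af_blk c_ld2

theorem c_k0 : S_K0 := Pool.Agent.Y232.AF.af_k0 c_ld2

theorem c_lnk : S_LNK := Pool.Agent.Y864.AF.af_lnk c_ld2

theorem c_en : S_EN := Pool.Agent.Y901.AF.af_en

theorem c_gi : C_GI := Pool.Agent.Y48.AF.af_gi Pool.Agent.Y48.AF.af_trig
  Pool.Agent.Y427.AF.af_spec c_en

theorem c_sums : C_SUMS := Pool.Agent.Y67.AF.af_sums c_en

theorem c_log : C_LOG := Pool.Agent.Y363.AF.af_log c_en Pool.Agent.Y828.AF.af_z3 c_sums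

theorem c_asy : S_ASY := Pool.Agent.Y352.AF.af_asym c_en c_gi Pool.Agent.Y427.AF.af_spr
  Pool.Agent.Y427.AF.af_spy Pool.Agent.Y572.AF.af_spw c_sums c_log

theorem c_coef : C_COEF := coef c_ld2 c_pos c_sym c_blk c_k0 c_hpd c_lnk c_en c_asy

theorem main {N n : ℕ} (G : Subgroup (UU N)) (hG : IsClosed (G : Set (UU N)))
    [MeasurableSpace G] [BorelSpace G] (μ : Measure G) [IsProbabilityMeasure μ]
    [μ.IsHaarMeasure] (B : LieBasis G n) (T : Mt N) (e : ℝ → G)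
    (he : ∀ t, mt (e t) = NormedSpace.exp (t • T)) :
    ∃ (C : ℝ) (K : ℕ), ∀ (L : ℕ) [NeZero L], 2 ≤ L → ∀ β : ℝ, (L : ℝ) ^ K ≤ β →
      |invCoupling μ e L β -
        (β * ‖T‖ ^ 2 - 11 / (24 * Real.pi ^ 2) * kap B T * Real.log L)| ≤ C :=
  main_of Pool.Agent.Y781.AF.af_gauge Pool.Agent.Y515.AF.af_diff Pool.Agent.Y614.AF.af_ball
    Pool.Agent.Y352.AF.af_coer Pool.Agent.Y421.AF.af_mom Pool.Agent.Y500.AF.af_tay1
    Pool.Agent.Y454.AF.af_tay2 Pool.Agent.Y349.AF.af_tayg Pool.Agent.Y929.AF.af_ibp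
    Pool.Agent.Y220.AF.af_abs c_hpd c_coef G hG μ B T e he

end Pool.Agent.Y16.AF
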