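import Mathlib
import Pool.Agent.Y16.AF.StmB
import Pool.Agent.Y16.AF.Coef

open MeasureTheory Matrix Filter
open scoped Matrix.Norms.Frobenius Topology

namespace Pool.Agent.Y16.AF

/-- The one loop coefficient. -/
noncomputable def XX (L : ℕ) [NeZero L] : ℝ :=
  trace ((rs (Hm (L := L)))⁻¹ * rs (Rm (L := L))) +
      trace ((rs (Hm (L := L)))⁻¹ * rs (Qm (L := L)) *
        ((rs (Hm (L := L)))⁻¹ * rs (Qm (L := L))))

/-- The one loop coefficient as a sum over the modes. -/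
theorem coef_eq (hld : S_LD2) (hpos : S_POS) (hsym : S_SYM) (hblk : S_BLK) (hk0 : S_K0)
    (hhpd : S_HPD) (hlnk : S_LNK) (hen : S_EN) (L : ℕ) [NeZero L] (hL : 2 ≤ L) :
    XX L = (∑ k ∈ nz L, FF L (ang k 0) (en k)) +
      (ld2 (fun ε => det ((Matrix.of (hS (L := L) ε 1)).submatrix
      (Sum.inr : Fin (L - 1) × Fin 3 → AL L) (Sum.inr : Fin (L - 1) × Fin 3 → AL L)))).re := by
  obtain ⟨C1, hC1⟩ := hk0
  obtain ⟨c, C, hc, hC, hen⟩ := hen
  obtain ⟨hk1, hk2, hk3⟩ := hC1 L hL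
  obtain ⟨hl1, hl2, hl3⟩ := hlnk L hL (hhpd L hL).1
  set g : ℝ → ℂ := fun ε => det ((Matrix.of (hS (L := L) ε 1)).submatrix
      (Sum.inr : Fin (L - 1) × Fin 3 → AL L) (Sum.inr : Fin (L - 1) × Fin 3 → AL L)) with hg
  set b : Sp L → ℝ := fun k => (2 - 2 * Real.cos (ang k 1)) + (2 - 2 * Real.cos (ang k 2)) with hb
  set f : Sp L → ℝ → ℂ := fun k ε => det (blk L ε (Complex.exp (Complex.I * (ang k 0 : ℝ))) (b k))
    with hf
  have hwh : ∀ k : Sp L, wh2 k = 2 - 2 * Real.cos (ang k 0) + b k := by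
    intro k
    simp only [wh2, hb, Fin.sum_univ_three]
    ring
  have hb0 : ∀ k, 0 ≤ b k := by
    intro k
    have h1 := Real.cos_le_one (ang k 1)
    have h2 := Real.cos_le_one (ang k 2)
    simp only [hb]
    linarith
  have hB : ∀ k : Sp L, k ≠ 0 → ContDiff ℝ 2 (f k) ∧ f k 0 ≠ 0 ∧
      ld2 (f k) = ((FF L (ang k 0) (en k) : ℝ) : ℂ) := by
    intro k hk
    obtain ⟨h1, -, -, h4, -⟩ := hen L hL k hk
    exact hblk L hL (ang k 0) (b k) (en k) (hb0 k) h1 (by rw [h4, hwh])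
  have hdet : (fun ε => det (rs (hF (L := L) ε))) =
      fun ε => (1 / (L : ℂ) ^ 3) *
        ((∏ k ∈ Finset.univ.filter (fun k : Sp L => k ≠ 0), f k ε) * g ε) := by
    funext ε
    rw [hpos L hL ε, mul_assoc]
    congr 2
    refine Finset.prod_congr rfl fun k _ => ?_
    rw [hsym L hL ε (zk k) (norm_zk k), norm_zk_sub, norm_zk_sub, zk_eq]
  have hL0 : (L : ℂ) ≠ 0 := by
    exact_mod_cast (NeZero.ne L)
  have hP : ContDiff ℝ 2 (fun ε => ∏ k ∈ Finset.univ.filter (fun k : Sp L => k ≠ 0), f k ε) :=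
    contDiff_prod fun k hk => (hB k (Finset.mem_filter.1 hk).2).1
  have hP0 : (∏ k ∈ Finset.univ.filter (fun k : Sp L => k ≠ 0), f k 0) ≠ 0 :=
    Finset.prod_ne_zero_iff.2 fun k hk => (hB k (Finset.mem_filter.1 hk).2).2.1
  have hsum : ld2 (fun ε => det (rs (hF (L := L) ε))) =
      (((∑ k ∈ Finset.univ.filter (fun k : Sp L => k ≠ 0), FF L (ang k 0) (en k) : ℝ)) : ℂ) +
        ld2 g := by
    rw [hdet, hld.1 (fun _ => 1 / (L : ℂ) ^ 3) _ contDiff_const (hP.mul hk1)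
      (by simpa using hL0) (mul_ne_zero hP0 hk2), hld.2.1, zero_add,
      hld.1 _ _ hP hk1 hP0 hk2, ld2_prod hld _ _
        (fun k hk => (hB k (Finset.mem_filter.1 hk).2).1)
        (fun k hk => (hB k (Finset.mem_filter.1 hk).2).2.1)]
    congr 1
    push_cast
    refine Finset.sum_congr rfl fun k hk => ?_
    exact (hB k (Finset.mem_filter.1 hk).2).2.2
  rw [hl3] at hsum
  have := congrArg Complex.re hsum
  rw [Complex.add_re, Complex.ofReal_re, Complex.ofReal_re] at this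
  exact this

/-- Convergence of the one loop coefficient. -/
def C_COEFL : Prop :=
  ∃ x : ℝ, Tendsto (fun L : ℕ => XX (L + 2) +
    11 / (12 * Real.pi ^ 2) * Real.log ((L + 2 : ℕ) : ℝ)) atTop (𝓝 x)

theorem coefl (hld : S_LD2) (hpos : S_POS) (hsym : S_SYM) (hblk : S_BLK) (hk0 : S_K0)
    (hk0l : S_K0L) (hhpd : S_HPD) (hlnk : S_LNK) (hen : S_EN) (hasyl : C_ASYL) : C_COEFL := by
  obtain ⟨x, hx⟩ := hk0l
  obtain ⟨y, hy⟩ := hasyl
  refine ⟨y + x.re, ?_⟩
  have h1 := hy.add ((Complex.continuous_re.tendsto x).comp hx)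
  refine h1.congr fun L => ?_
  rw [coef_eq hld hpos hsym hblk hk0 hhpd hlnk hen (L + 2) (by omega)]
  simp only [Function.comp]
  ring

end Pool.Agent.Y16.AF
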