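import Mathlib
import Pool.Agent.Y16.AF.Prob5

open MeasureTheory Matrix Filter
open scoped Matrix.Norms.Frobenius Topology Kronecker
open Pool.Agent.Y16.Gluon
open Pool.Agent.H906R3

namespace Pool.Agent.Y16.AF

set_option linter.unusedSectionVars false

variable {N n : ℕ} {G : Subgroup (UU N)}

lemma skT (B : LieBasis G n) {T : Mt N} (hT : T ∈ Submodule.span ℝ (Set.range B.X)) :
    Tᴴ = -T := by
  induction hT using Submodule.span_induction with
  | mem x hx => obtain ⟨a, rfl⟩ := hx; exact skX B a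
  | zero => simp
  | add x y _ _ hx hy => rw [conjTranspose_add, hx, hy]; abel
  | smul c x _ hx => rw [conjTranspose_smul, hx]; simp

lemma tr_eM (B : LieBasis G n) {T : Mt N} (hT : T ∈ Submodule.span ℝ (Set.range B.X)) :
    trace (eM B T) = 1 / 4 * kap B T - ∑ a, ‖B.X a * T‖ ^ 2 := by
  have h1 : ∀ a, ‖B.X a * T‖ ^ 2 = (trace (T * T * (B.X a * B.X a))).re := by
    intro a
    rw [frob_sq, conjTranspose_mul, skX, skT B hT]
    congr 1
    have : -T * -B.X a * (B.X a * T) = T * (B.X a * B.X a * T) := by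
      simp only [neg_mul, mul_neg, neg_neg, mul_assoc]
    rw [this, ← mul_assoc, Matrix.trace_mul_comm, ← mul_assoc, ← mul_assoc]
  have h2 : trace (eM B T) = -(∑ a, (trace (T * T * (B.X a * B.X a))).re) -
      1 / 4 * trace (Jm B T * Jm B T) := by
    rw [Matrix.trace, Matrix.trace, Finset.mul_sum, ← Finset.sum_neg_distrib,
      ← Finset.sum_sub_distrib]
    refine Finset.sum_congr rfl fun a _ => ?_
    show -(1 / 2) * (trace (T * T * (B.X a * B.X a + B.X a * B.X a))).re -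
      1 / 4 * (Jm B T * Jm B T) a a = _
    rw [Matrix.mul_add, Matrix.trace_add, Complex.add_re]
    rw [Matrix.diag_apply]
    ring
  rw [h2, kap_eq B hT]
  simp only [h1]
  ring

/-- The conclusion: the running coupling up to an error which tends to zero. -/
def C_FIN : Prop :=
  ∃ (x w : ℝ) (K : ℕ), ∀ {N n : ℕ} (G : Subgroup (UU N)) (_ : IsClosed (G : Set (UU N)))
    [MeasurableSpace G] [BorelSpace G] (μ : Measure G) [IsProbabilityMeasure μ]
    [μ.IsHaarMeasure] (B : LieBasis G n) (T : Mt N) (e : ℝ → G)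
    (_ : ∀ t, mt (e t) = NormedSpace.exp (t • T)),
    ∃ δ : ℕ → ℝ, Tendsto δ atTop (𝓝 0) ∧ ∀ (L : ℕ) [NeZero L], 2 ≤ L → ∀ β : ℝ,
      (L : ℝ) ^ K ≤ β → |invCoupling μ e L β - (β * ‖T‖ ^ 2 -
        11 / (24 * Real.pi ^ 2) * kap B T * Real.log L + x * kap B T -
        w * ∑ a, ‖B.X a * T‖ ^ 2)| ≤ δ L

theorem sharp_of (hgauge : S_GAUGE) (hdiff : S_DIFF) (hball : S_BALL) (hcoer : S_COER)
    (hmom : S_MOM) (htay1 : S_TAY1) (htay2 : S_TAY2) (htayg : S_TAYG) (hibp : S_IBP)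
    (habs : S_ABS) (hhpd : S_HPD) (hcoef : C_COEFL) (hwl : C_WL) : C_FIN := by
  obtain ⟨K, hcore⟩ := core_of hgauge hdiff hball hcoer hmom htay1 htay2 htayg hibp habs hhpd
  obtain ⟨x, hx⟩ := hcoef
  obtain ⟨w, hw⟩ := hwl
  refine ⟨1 / 2 * x + 1 / 8 * w, 1 / 2 * w, K, ?_⟩
  intro N n G hG _ _ μ _ _ B T e he
  obtain ⟨C, hC⟩ := hcore G hG μ B T e he
  have hT : T ∈ Submodule.span ℝ (Set.range B.X) := T_mem B he
  set κ := kap B T with hκ
  set t := trace (eM B T) with ht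
  set a : ℕ → ℝ := fun l => C / ((l + 2 : ℕ) : ℝ) +
    |1 / 2 * κ * (XX (l + 2) + 11 / (12 * Real.pi ^ 2) * Real.log ((l + 2 : ℕ) : ℝ) - x)| +
    |1 / 2 * t * (trace ((rs (Hm (L := l + 2)))⁻¹ * rs (H01 (L := l + 2))) /
      ((l + 2 : ℕ) : ℝ) ^ 4 - w)| with ha
  have ha0 : Tendsto a atTop (𝓝 0) := by
    have h1 : Tendsto (fun l : ℕ => C / ((l + 2 : ℕ) : ℝ)) atTop (𝓝 0) :=
      (tendsto_const_div_atTop_nhds_zero_nat C).comp (tendsto_add_atTop_nat 2)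
    have h2 : Tendsto (fun l : ℕ => |1 / 2 * κ * (XX (l + 2) + 11 / (12 * Real.pi ^ 2) *
        Real.log ((l + 2 : ℕ) : ℝ) - x)|) atTop (𝓝 0) := by
      have h3 := ((hx.sub_const x).const_mul (1 / 2 * κ)).abs
      simpa using h3
    have h4 : Tendsto (fun l : ℕ => |1 / 2 * t * (trace ((rs (Hm (L := l + 2)))⁻¹ *
        rs (H01 (L := l + 2))) / ((l + 2 : ℕ) : ℝ) ^ 4 - w)|) atTop (𝓝 0) := by
      have h3 := ((hw.sub_const w).const_mul (1 / 2 * t)).abs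
      simpa using h3
    have h5 := (h1.add h2).add h4
    rw [add_zero, add_zero] at h5
    exact h5
  refine ⟨fun L => a (L - 2), ha0.comp (tendsto_sub_atTop_nat 2), ?_⟩
  intro L _ hL β hβ
  obtain ⟨l, rfl⟩ : ∃ l, L = l + 2 := ⟨L - 2, by omega⟩
  have h1 := hC (l + 2) hL β hβ
  show _ ≤ a (l + 2 - 2)
  have h2 : l + 2 - 2 = l := rfl
  rw [h2]
  have hpi : Real.pi ≠ 0 := Real.pi_ne_zero
  have he : invCoupling μ e (l + 2) β - (β * ‖T‖ ^ 2 -
        11 / (24 * Real.pi ^ 2) * κ * Real.log ((l + 2 : ℕ) : ℝ) +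
        (1 / 2 * x + 1 / 8 * w) * κ - 1 / 2 * w * ∑ a, ‖B.X a * T‖ ^ 2) =
      (invCoupling μ e (l + 2) β - (β * ‖T‖ ^ 2 + 1 / 2 * (κ * XX (l + 2)) + 1 / 2 *
        (1 / ((l + 2 : ℕ) : ℝ) ^ 4 * trace ((rs (Hm (L := l + 2)))⁻¹ * rs (H01 (L := l + 2)))) *
        t)) +
      1 / 2 * κ * (XX (l + 2) + 11 / (12 * Real.pi ^ 2) * Real.log ((l + 2 : ℕ) : ℝ) - x) +
      1 / 2 * t * (trace ((rs (Hm (L := l + 2)))⁻¹ * rs (H01 (L := l + 2))) /
        ((l + 2 : ℕ) : ℝ) ^ 4 - w) := by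
    have h5 : (11 : ℝ) / (24 * Real.pi ^ 2) = 1 / 2 * (11 / (12 * Real.pi ^ 2)) := by
      field_simp
      norm_num
    rw [h5, ht, tr_eM B hT]
    ring
  rw [he]
  refine (abs_add_three _ _ _).trans ?_
  simp only [ha]
  gcongr

end Pool.Agent.Y16.AF
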