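import Mathlib
import Pool.Agent.Y16.AF.Prob6
import Pool.Agent.Y274.YMTan

open MeasureTheory Matrix Filter
open scoped Matrix.Norms.Frobenius Topology Kronecker
open Pool.Agent.Y16.Gluon
open Pool.Agent.H906R3

namespace Pool.Agent.Y16.AF

set_option linter.unusedSectionVars false

/-! ### quadratic forms in the coordinates -/

/-- Quadratic forms in `t`. -/
def IsQ {n : ℕ} (q : (Fin n → ℝ) → ℝ) : Prop :=
  ∃ m : Fin n → Fin n → ℝ, ∀ t, q t = ∑ a, ∑ b, t a * t b * m a b

/-- Linear forms in `t`. -/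
def IsL {n : ℕ} (l : (Fin n → ℝ) → ℝ) : Prop :=
  ∃ v : Fin n → ℝ, ∀ t, l t = ∑ a, t a * v a

section quad

variable {n : ℕ}

lemma IsL.mul {l k : (Fin n → ℝ) → ℝ} (h : IsL l) (h' : IsL k) : IsQ fun t => l t * k t := by
  obtain ⟨v, hv⟩ := h
  obtain ⟨w, hw⟩ := h'
  refine ⟨fun a b => v a * w b, fun t => ?_⟩
  beta_reduce
  rw [hv, hw, Finset.sum_mul_sum]
  refine Finset.sum_congr rfl fun a _ => Finset.sum_congr rfl fun b _ => by ring

lemma IsQ.add {p q : (Fin n → ℝ) → ℝ} (h : IsQ p) (h' : IsQ q) : IsQ fun t => p t + q t := by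
  obtain ⟨v, hv⟩ := h
  obtain ⟨w, hw⟩ := h'
  refine ⟨fun a b => v a b + w a b, fun t => ?_⟩
  beta_reduce
  rw [hv, hw, ← Finset.sum_add_distrib]
  refine Finset.sum_congr rfl fun a _ => ?_
  rw [← Finset.sum_add_distrib]
  exact Finset.sum_congr rfl fun b _ => by ring

lemma IsQ.smul {p : (Fin n → ℝ) → ℝ} (h : IsQ p) (c : ℝ) : IsQ fun t => c * p t := by
  obtain ⟨v, hv⟩ := h
  refine ⟨fun a b => c * v a b, fun t => ?_⟩
  beta_reduce
  rw [hv, Finset.mul_sum]
  refine Finset.sum_congr rfl fun a _ => ?_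
  rw [Finset.mul_sum]
  exact Finset.sum_congr rfl fun b _ => by ring

lemma IsQ.sub {p q : (Fin n → ℝ) → ℝ} (h : IsQ p) (h' : IsQ q) : IsQ fun t => p t - q t := by
  have := h.add (h'.smul (-1))
  simpa [sub_eq_add_neg] using this

lemma IsQ.sum {ι : Type*} (s : Finset ι) {p : ι → (Fin n → ℝ) → ℝ} (h : ∀ i ∈ s, IsQ (p i)) :
    IsQ fun t => ∑ i ∈ s, p i t := by
  classical
  induction s using Finset.induction_on with
  | empty => exact ⟨fun _ _ => 0, fun t => by simp⟩
  | insert i s hi ih =>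
    have h1 := (h i (Finset.mem_insert_self _ _)).add
      (ih fun j hj => h j (Finset.mem_insert_of_mem hj))
    simpa [Finset.sum_insert hi] using h1

/-- A quadratic form in `t` which comes from a bilinear map. -/
lemma IsQ.bil {V : Type*} [AddCommGroup V] [Module ℝ V] (b : V →ₗ[ℝ] V →ₗ[ℝ] ℝ)
    (X : Fin n → V) (t : Fin n → ℝ) :
    b (∑ a, t a • X a) (∑ a, t a • X a) = ∑ a, ∑ c, t a * t c * b (X a) (X c) := by
  simp only [map_sum, LinearMap.sum_apply, map_smul, LinearMap.smul_apply, smul_eq_mul,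
    Finset.mul_sum]
  rw [Finset.sum_comm]
  refine Finset.sum_congr rfl fun c _ => Finset.sum_congr rfl fun a _ => ?_
  ring

/-- The polarisation bound. -/
lemma IsQ.bound {q : (Fin n → ℝ) → ℝ} (h : IsQ q) {δ : ℝ}
    (h1 : ∀ a, |q (Pi.single a 1)| ≤ δ)
    (h2 : ∀ a b, |q (Pi.single a 1 + Pi.single b 1)| ≤ δ) (t : Fin n → ℝ) :
    |q t| ≤ 2 * n * δ * ∑ a, t a ^ 2 := by
  obtain ⟨m, hm⟩ := h
  have e1 : ∀ a, q (Pi.single a 1) = m a a := by
    intro a
    rw [hm]
    rw [Finset.sum_eq_single a, Finset.sum_eq_single a]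
    · simp
    · intro b _ hb; simp [hb]
    · simp
    · intro b _ hb; simp [hb]
    · simp
  have e2 : ∀ a b, q (Pi.single a 1 + Pi.single b 1) = m a a + m b b + m a b + m b a := by
    intro a b
    rw [hm]
    simp only [Pi.add_apply, add_mul, mul_add, Finset.sum_add_distrib, Pi.single_apply,
      ite_mul, mul_ite, zero_mul, mul_zero, one_mul, mul_one, Finset.sum_ite_eq,
      Finset.sum_ite_eq', Finset.mem_univ, if_true]
    ring
  have h3 : ∀ a b, |m a b + m b a| ≤ 3 * δ := by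
    intro a b
    have e3 : m a b + m b a = q (Pi.single a 1 + Pi.single b 1) - q (Pi.single a 1) -
        q (Pi.single b 1) := by rw [e2, e1, e1]; ring
    rw [e3]
    have := abs_le.1 (h1 a); have := abs_le.1 (h1 b); have := abs_le.1 (h2 a b)
    rw [abs_le]; constructor <;> linarith
  have h4 : 2 * q t = ∑ a, ∑ b, t a * t b * (m a b + m b a) := by
    have h5 : ∑ a, ∑ b, t a * t b * (m a b + m b a) = (∑ a, ∑ b, t a * t b * m a b) +
        ∑ a, ∑ b, t a * t b * m b a := by
      rw [← Finset.sum_add_distrib]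
      refine Finset.sum_congr rfl fun a _ => ?_
      rw [← Finset.sum_add_distrib]
      exact Finset.sum_congr rfl fun b _ => by ring
    have h6 : ∑ a, ∑ b, t a * t b * m b a = ∑ a, ∑ b, t a * t b * m a b := by
      rw [Finset.sum_comm]
      exact Finset.sum_congr rfl fun a _ => Finset.sum_congr rfl fun b _ => by ring
    rw [h5, h6, ← hm]
    ring
  have h7 : |2 * q t| ≤ 3 * δ * (∑ a, |t a|) ^ 2 := by
    rw [h4]
    calc |∑ a, ∑ b, t a * t b * (m a b + m b a)|
        ≤ ∑ a, ∑ b, |t a * t b * (m a b + m b a)| :=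
          (Finset.abs_sum_le_sum_abs _ _).trans
            (Finset.sum_le_sum fun a _ => Finset.abs_sum_le_sum_abs _ _)
      _ ≤ ∑ a, ∑ b, |t a| * |t b| * (3 * δ) := by
          refine Finset.sum_le_sum fun a _ => Finset.sum_le_sum fun b _ => ?_
          rw [abs_mul, abs_mul]
          exact mul_le_mul_of_nonneg_left (h3 a b) (by positivity)
      _ = 3 * δ * (∑ a, |t a|) ^ 2 := by
          rw [sq, Finset.sum_mul_sum, Finset.mul_sum]
          refine Finset.sum_congr rfl fun a _ => ?_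
          rw [Finset.mul_sum]
          exact Finset.sum_congr rfl fun b _ => by ring
  have h8 : (∑ a, |t a|) ^ 2 ≤ n * ∑ a, t a ^ 2 := by
    have := sq_sum_le_card_mul_sum_sq (s := Finset.univ) (f := fun a => |t a|)
    simpa using this
  rcases Nat.eq_zero_or_pos n with hn | hn
  · subst hn
    simp at h4 ⊢
    have : q t = 0 := by rw [hm]; simp
    simp [this]
  · have hδ : 0 ≤ δ := (abs_nonneg _).trans (h1 ⟨0, hn⟩)
    rw [abs_mul, abs_of_pos (by norm_num : (0 : ℝ) < 2)] at h7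
    have h9 : 3 * δ * (∑ a, |t a|) ^ 2 ≤ 3 * δ * (n * ∑ a, t a ^ 2) :=
      mul_le_mul_of_nonneg_left h8 (by positivity)
    have h10 : 0 ≤ n * ∑ a, t a ^ 2 := by positivity
    nlinarith [mul_nonneg hδ h10]

end quad

end Pool.Agent.Y16.AF
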