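import Mathlib
import Pool.Agent.Y16.AF.Prob7

open MeasureTheory Matrix Filter
open scoped Matrix.Norms.Frobenius Topology Kronecker
open Pool.Agent.Y16.Gluon
open Pool.Agent.H906R3

namespace Pool.Agent.Y16.AF

set_option linter.unusedSectionVars false

section quad

variable {n : ℕ}

lemma IsQ.rep {q : (Fin n → ℝ) → ℝ} (h : IsQ q) (t : Fin n → ℝ) :
    q t = ∑ a, ∑ b, t a * t b * (1 / 2 * (q (Pi.single a 1 + Pi.single b 1) -
      q (Pi.single a 1) - q (Pi.single b 1))) := by
  obtain ⟨m, hm⟩ := h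
  have e1 : ∀ a, q (Pi.single a 1) = m a a := by
    intro a
    rw [hm]
    rw [Finset.sum_eq_single a, Finset.sum_eq_single a]
    · simp
    · intro b _ hb; simp [hb]
    · simp
    · intro b _ hb; simp [hb]
    · simp
  have e2 : ∀ a b, q (Pi.single a 1 + Pi.single b 1) = m a a + m b b + m a b + m b a := by
    intro a b
    rw [hm]
    simp only [Pi.add_apply, add_mul, mul_add, Finset.sum_add_distrib, Pi.single_apply,
      ite_mul, mul_ite, zero_mul, mul_zero, one_mul, mul_one,
      Finset.sum_ite_eq', Finset.mem_univ, if_true]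
    ring
  have h6 : ∑ a, ∑ b, t a * t b * m b a = ∑ a, ∑ b, t a * t b * m a b := by
    rw [Finset.sum_comm]
    exact Finset.sum_congr rfl fun a _ => Finset.sum_congr rfl fun b _ => by ring
  have h7 : ∑ a, ∑ b, t a * t b * (1 / 2 * (q (Pi.single a 1 + Pi.single b 1) -
      q (Pi.single a 1) - q (Pi.single b 1))) = 1 / 2 * (∑ a, ∑ b, t a * t b * m a b) +
      1 / 2 * ∑ a, ∑ b, t a * t b * m b a := by
    rw [Finset.mul_sum, Finset.mul_sum, ← Finset.sum_add_distrib]
    refine Finset.sum_congr rfl fun a _ => ?_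
    rw [Finset.mul_sum, Finset.mul_sum, ← Finset.sum_add_distrib]
    refine Finset.sum_congr rfl fun b _ => ?_
    rw [e2, e1, e1]
    ring
  rw [h7, h6, hm]
  ring

lemma IsQ.int {Ω : Type*} [MeasurableSpace Ω] {P : Measure Ω} {f : (Fin n → ℝ) → Ω → ℝ}
    (hf : ∀ t, Integrable (f t) P) (h : ∀ U, IsQ fun t => f t U) :
    IsQ fun t => ∫ U, f t U ∂P := by
  refine ⟨fun a b => ∫ U, 1 / 2 * (f (Pi.single a 1 + Pi.single b 1) U -
      f (Pi.single a 1) U - f (Pi.single b 1) U) ∂P, fun t => ?_⟩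
  have hi : ∀ a b, Integrable (fun U => 1 / 2 * (f (Pi.single a 1 + Pi.single b 1) U -
      f (Pi.single a 1) U - f (Pi.single b 1) U)) P := fun a b =>
    (((hf _).sub (hf _)).sub (hf _)).const_mul _
  calc ∫ U, f t U ∂P = ∫ U, ∑ a, ∑ b, t a * t b * (1 / 2 * (f (Pi.single a 1 + Pi.single b 1) U -
      f (Pi.single a 1) U - f (Pi.single b 1) U)) ∂P := by
        congr 1
        funext U
        exact (h U).rep t
    _ = _ := by
        rw [integral_finsetSum _ fun a _ => integrable_finsetSum _ fun b _ =>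
          (hi a b).const_mul _]
        refine Finset.sum_congr rfl fun a _ => ?_
        rw [integral_finsetSum _ fun b _ => (hi a b).const_mul _]
        refine Finset.sum_congr rfl fun b _ => ?_
        rw [integral_const_mul]

lemma IsL.rep {q : (Fin n → ℝ) → ℝ} (h : IsL q) (t : Fin n → ℝ) :
    q t = ∑ a, t a * q (Pi.single a 1) := by
  obtain ⟨m, hm⟩ := h
  rw [hm]
  refine Finset.sum_congr rfl fun a _ => ?_
  rw [hm, Finset.sum_eq_single a]
  · simp
  · intro b _ hb; simp [hb]
  · simp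

lemma IsL.int {Ω : Type*} [MeasurableSpace Ω] {P : Measure Ω} {f : (Fin n → ℝ) → Ω → ℝ}
    (hf : ∀ t, Integrable (f t) P) (h : ∀ U, IsL fun t => f t U) :
    IsL fun t => ∫ U, f t U ∂P := by
  refine ⟨fun a => ∫ U, f (Pi.single a 1) U ∂P, fun t => ?_⟩
  calc ∫ U, f t U ∂P = ∫ U, ∑ a, t a * f (Pi.single a 1) U ∂P := by
        congr 1
        funext U
        exact (h U).rep t
    _ = _ := by
        rw [integral_finsetSum _ fun a _ => (hf _).const_mul _]
        refine Finset.sum_congr rfl fun a _ => ?_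
        rw [integral_const_mul]

end quad

variable {N n L : ℕ} {G : Subgroup (UU N)}

/-- The element of the Lie algebra with the coordinates `t`. -/
noncomputable def lc (B : LieBasis G n) (t : Fin n → ℝ) : Mt N := ∑ a, t a • B.X a

lemma lc_single (B : LieBasis G n) (a : Fin n) : lc B (Pi.single a 1) = B.X a := by
  unfold lc
  rw [Finset.sum_eq_single a]
  · simp
  · intro b _ hb; simp [hb]
  · simp

lemma lc_add (B : LieBasis G n) (s t : Fin n → ℝ) : lc B (s + t) = lc B s + lc B t := by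
  unfold lc
  rw [← Finset.sum_add_distrib]
  exact Finset.sum_congr rfl fun a _ => by rw [Pi.add_apply, add_smul]

lemma re_smul (c : ℝ) (M : Mt N) : (trace (c • M)).re = c * (trace M).re := by
  rw [trace_smul, Complex.real_smul, Complex.re_ofReal_mul]

lemma D1_lc (B : LieBasis G n) (α τ : ℝ) (g : Fin 4 → G) : IsL fun t => D1 (lc B t) α τ g := by
  refine ⟨fun a => D1 (B.X a) α τ g, fun t => ?_⟩
  have h1 : (trace (lc B t * (mt (g 0) * mt (g 1) * mt (g 2) * mt (g 3)))).re =
      ∑ a, t a * (trace (B.X a * (mt (g 0) * mt (g 1) * mt (g 2) * mt (g 3)))).re := by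
    unfold lc
    rw [Finset.sum_mul, trace_sum, Complex.re_sum]
    exact Finset.sum_congr rfl fun a _ => by rw [smul_mul_assoc, re_smul]
  have h2 : (trace ((lc B t * mt (g 0) - mt (g 0) * lc B t) *
      (mt (g 1) * mt (g 2) * mt (g 3)))).re = ∑ a, t a * (trace ((B.X a * mt (g 0) -
        mt (g 0) * B.X a) * (mt (g 1) * mt (g 2) * mt (g 3)))).re := by
    unfold lc
    rw [Finset.sum_mul, Finset.mul_sum, ← Finset.sum_sub_distrib, Finset.sum_mul, trace_sum,
      Complex.re_sum]
    refine Finset.sum_congr rfl fun a _ => ?_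
    rw [smul_mul_assoc, mul_smul_comm, ← smul_sub, smul_mul_assoc, re_smul]
  show -(α * (trace (lc B t * (mt (g 0) * mt (g 1) * mt (g 2) * mt (g 3)))).re +
    τ * (trace ((lc B t * mt (g 0) - mt (g 0) * lc B t) *
      (mt (g 1) * mt (g 2) * mt (g 3)))).re) = _
  rw [h1, h2, Finset.mul_sum, Finset.mul_sum, ← Finset.sum_add_distrib, ← Finset.sum_neg_distrib]
  refine Finset.sum_congr rfl fun a _ => ?_
  unfold D1
  ring

/-- The polarised second derivative. -/
noncomputable def D2b (α τ : ℝ) (g : Fin 4 → G) : Mt N →ₗ[ℝ] Mt N →ₗ[ℝ] ℝ :=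
  LinearMap.mk₂ ℝ (fun T S =>
    -(α ^ 2 * (trace (T * S * (mt (g 0) * mt (g 1) * mt (g 2) * mt (g 3)))).re +
    2 * (α * τ) * (trace (T * (S * mt (g 0) - mt (g 0) * S) *
      (mt (g 1) * mt (g 2) * mt (g 3)))).re +
    τ ^ 2 * (trace ((T * (S * mt (g 0) - mt (g 0) * S) - (S * mt (g 0) - mt (g 0) * S) * T) *
      (mt (g 1) * mt (g 2) * mt (g 3)))).re))
    (by
      intro T T' S
      simp only [add_mul, mul_add, sub_mul, mul_sub, trace_add, trace_sub, Complex.add_re,
        Complex.sub_re]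
      ring)
    (by
      intro c T S
      simp only [smul_mul_assoc, mul_smul_comm, ← smul_sub, re_smul, smul_eq_mul]
      ring)
    (by
      intro T S S'
      simp only [add_mul, mul_add, sub_mul, mul_sub, trace_add, trace_sub, Complex.add_re,
        Complex.sub_re]
      ring)
    (by
      intro c T S
      simp only [smul_mul_assoc, mul_smul_comm, ← smul_sub, re_smul, smul_eq_mul]
      ring)

lemma D2_lc (B : LieBasis G n) (α τ : ℝ) (g : Fin 4 → G) : IsQ fun t => D2 (lc B t) α τ g :=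
  ⟨fun a b => D2b α τ g (B.X a) (B.X b), fun t => IsQ.bil (D2b α τ g) B.X t⟩

/-- The inner product. -/
noncomputable def ipb : Mt N →ₗ[ℝ] Mt N →ₗ[ℝ] ℝ :=
  LinearMap.mk₂ ℝ (fun Y Z => (trace (Yᴴ * Z)).re)
    (by intro T T' S; simp [add_mul])
    (by intro c T S; rw [conjTranspose_smul, smul_mul_assoc]; simp)
    (by intro T S S'; simp [mul_add])
    (by intro c T S; rw [mul_smul_comm, re_smul, smul_eq_mul])

lemma norm_lc (B : LieBasis G n) (l : Mt N →ₗ[ℝ] Mt N) : IsQ fun t => ‖l (lc B t)‖ ^ 2 := by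
  refine ⟨fun a b => ipb (l (B.X a)) (l (B.X b)), fun t => ?_⟩
  have h := IsQ.bil (ipb (N := N)) (fun a => l (B.X a)) t
  rw [← h]
  have h2 : l (lc B t) = ∑ a, t a • l (B.X a) := by
    unfold lc
    rw [map_sum]
    exact Finset.sum_congr rfl fun a _ => map_smul _ _ _
  beta_reduce
  rw [frob_sq, h2]
  rfl

variable [NeZero L]

lemma S1_lc (B : LieBasis G n) (U : Links L → G) : IsL fun t => S1 (lc B t) U := by
  refine ⟨fun a => S1 (B.X a) U, fun t => ?_⟩
  show ∑ p : Pq L, D1 (lc B t) (al L p.2.2) (ta p.2.1 p.2.2) (lg (fx U) p) = _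
  have h1 : ∀ p : Pq L, D1 (lc B t) (al L p.2.2) (ta p.2.1 p.2.2) (lg (fx U) p) =
      ∑ a, t a * D1 (B.X a) (al L p.2.2) (ta p.2.1 p.2.2) (lg (fx U) p) := by
    intro p
    have h := (D1_lc B (al L p.2.2) (ta p.2.1 p.2.2) (lg (fx U) p)).rep t
    simp only [lc_single] at h
    exact h
  simp only [h1]
  rw [Finset.sum_comm]
  refine Finset.sum_congr rfl fun a _ => ?_
  rw [← Finset.mul_sum]
  rfl

lemma S2_lc (B : LieBasis G n) (U : Links L → G) : IsQ fun t => S2 (lc B t) U :=
  IsQ.sum _ fun p _ => D2_lc B (al L p.2.2) (ta p.2.1 p.2.2) (lg (fx U) p)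

/-- The coupling as a function of the field. -/
noncomputable def VT [MeasurableSpace G] (μ : Measure G) (L : ℕ) [NeZero L] (β : ℝ)
    (T : Mt N) : ℝ :=
  β * ∫ U, S2 T U ∂(PP μ L β) -
      β ^ 2 * (∫ U, S1 T U ^ 2 ∂(PP μ L β) - (∫ U, S1 T U ∂(PP μ L β)) ^ 2)

lemma inv_eq (hgauge : S_GAUGE) (hdiff : S_DIFF) (hG : IsClosed (G : Set (UU N)))
    [MeasurableSpace G] [BorelSpace G] (μ : Measure G) [IsProbabilityMeasure μ]
    [μ.IsHaarMeasure] (T : Mt N) (e : ℝ → G) (he : ∀ t, mt (e t) = NormedSpace.exp (t • T))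
    (hL : 2 ≤ L) (β : ℝ) : invCoupling μ e L β = VT μ L β T := by
  unfold invCoupling VT
  have h1 : (fun ε => -Real.log (Z μ e L β ε)) = fun ε => -Real.log
      (∫ U : Links L → G, Real.exp (-(β * Sg e ε U)) ∂(Measure.pi fun _ => μ)) := by
    funext ε
    rw [hgauge G hG μ T e he L hL β ε]
  have : CompactSpace G := compactG hG
  have : SecondCountableTopology G := scG
  rw [h1, hdiff G hG μ T e he L β, EX_eq, EX_eq, EX_eq]

lemma VT_lc (hG : IsClosed (G : Set (UU N))) [MeasurableSpace G] [BorelSpace G] (μ : Measure G)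
    [IsProbabilityMeasure μ] [μ.IsHaarMeasure] (B : LieBasis G n) (β : ℝ) :
    IsQ fun t => VT μ L β (lc B t) := by
  have : CompactSpace G := compactG hG
  have : SecondCountableTopology G := scG
  have i1 : ∀ t, Integrable (fun U : Links L → G => S1 (lc B t) U) (PP μ L β) := fun t =>
    (S1_cont (lc B t)).integrable_of_hasCompactSupport (HasCompactSupport.of_compactSpace _)
  have i2 : ∀ t, Integrable (fun U : Links L → G => S2 (lc B t) U) (PP μ L β) := fun t =>
    (S2_cont (lc B t)).integrable_of_hasCompactSupport (HasCompactSupport.of_compactSpace _)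
  have i3 : ∀ t, Integrable (fun U : Links L → G => S1 (lc B t) U ^ 2) (PP μ L β) := fun t =>
    ((S1_cont (lc B t)).pow 2).integrable_of_hasCompactSupport (HasCompactSupport.of_compactSpace _)
  have q2 : IsQ fun t => ∫ U, S2 (lc B t) U ∂(PP μ L β) := IsQ.int i2 fun U => S2_lc B U
  have q1 : IsL fun t => ∫ U, S1 (lc B t) U ∂(PP μ L β) := IsL.int i1 fun U => S1_lc B U
  have q3 : IsQ fun t => ∫ U, S1 (lc B t) U ^ 2 ∂(PP μ L β) := by
    refine IsQ.int i3 fun U => ?_
    have := (S1_lc B U).mul (S1_lc B U)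
    simpa [sq] using this
  have q4 : IsQ fun t => (∫ U, S1 (lc B t) U ∂(PP μ L β)) ^ 2 := by
    have := q1.mul q1
    simpa [sq] using this
  exact (q2.smul β).sub ((q3.sub q4).smul (β ^ 2))

end Pool.Agent.Y16.AF
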