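import Mathlib
import Pool.Agent.Y16.AF.Prob8

open MeasureTheory Matrix Filter
open scoped Matrix.Norms.Frobenius Topology Kronecker
open Pool.Agent.Y16.Gluon
open Pool.Agent.H906R3

namespace Pool.Agent.Y16.AF

set_option linter.unusedSectionVars false

/-- The asymptotics for one field `T`. -/
def FIN (x w : ℝ) (K : ℕ) : Prop :=
  ∀ {N n : ℕ} (G : Subgroup (UU N)) (_ : IsClosed (G : Set (UU N)))
    [MeasurableSpace G] [BorelSpace G] (μ : Measure G) [IsProbabilityMeasure μ]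
    [μ.IsHaarMeasure] (B : LieBasis G n) (T : Mt N) (e : ℝ → G)
    (_ : ∀ t, mt (e t) = NormedSpace.exp (t • T)),
    ∃ δ : ℕ → ℝ, Tendsto δ atTop (𝓝 0) ∧ ∀ (L : ℕ) [NeZero L], 2 ≤ L → ∀ β : ℝ,
      (L : ℝ) ^ K ≤ β → |invCoupling μ e L β - (β * ‖T‖ ^ 2 -
        11 / (24 * Real.pi ^ 2) * kap B T * Real.log L + x * kap B T -
        w * ∑ a, ‖B.X a * T‖ ^ 2)| ≤ δ L

/-- The asymptotics, uniformly in the field `T`. -/
def FINU (x w : ℝ) (K : ℕ) : Prop :=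
  ∀ {N n : ℕ} (G : Subgroup (UU N)) (_ : IsClosed (G : Set (UU N)))
    [MeasurableSpace G] [BorelSpace G] (μ : Measure G) [IsProbabilityMeasure μ]
    [μ.IsHaarMeasure] (B : LieBasis G n),
    ∃ δ : ℕ → ℝ, Tendsto δ atTop (𝓝 0) ∧ ∀ (T : Mt N) (e : ℝ → G),
      (∀ t, mt (e t) = NormedSpace.exp (t • T)) → ∀ (L : ℕ) [NeZero L], 2 ≤ L → ∀ β : ℝ,
      (L : ℝ) ^ K ≤ β → |invCoupling μ e L β - (β * ‖T‖ ^ 2 -
        11 / (24 * Real.pi ^ 2) * kap B T * Real.log L + x * kap B T -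
        w * ∑ a, ‖B.X a * T‖ ^ 2)| ≤ δ L * ‖T‖ ^ 2

/-- The one loop formula. -/
def CORE (K : ℕ) : Prop :=
  ∀ {N n : ℕ} (G : Subgroup (UU N)) (_ : IsClosed (G : Set (UU N))) [MeasurableSpace G]
    [BorelSpace G] (μ : Measure G) [IsProbabilityMeasure μ] [μ.IsHaarMeasure] (B : LieBasis G n)
    (T : Mt N) (e : ℝ → G) (_ : ∀ t, mt (e t) = NormedSpace.exp (t • T)),
    ∃ (C : ℝ), ∀ (L : ℕ) [NeZero L], 2 ≤ L → ∀ β : ℝ, (L : ℝ) ^ K ≤ β →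
      |invCoupling μ e L β - (β * ‖T‖ ^ 2 + 1 / 2 * (kap B T * XX L) + 1 / 2 *
        (1 / (L : ℝ) ^ 4 * trace ((rs (Hm (L := L)))⁻¹ * rs (H01 (L := L)))) *
        trace (eM B T))| ≤ C / L

theorem fin_of {K : ℕ} (hcore : CORE K) {x w : ℝ}
    (hx : Tendsto (fun L : ℕ => XX (L + 2) +
      11 / (12 * Real.pi ^ 2) * Real.log ((L + 2 : ℕ) : ℝ)) atTop (𝓝 x))
    (hw : Tendsto (fun L : ℕ => trace ((rs (Hm (L := L + 2)))⁻¹ * rs (H01 (L := L + 2))) /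
      ((L + 2 : ℕ) : ℝ) ^ 4) atTop (𝓝 w)) : FIN (1 / 2 * x + 1 / 8 * w) (1 / 2 * w) K := by
  intro N n G hG _ _ μ _ _ B T e he
  obtain ⟨C, hC⟩ := hcore G hG μ B T e he
  have hT : T ∈ Submodule.span ℝ (Set.range B.X) := T_mem B he
  set κ := kap B T with hκ
  set t := trace (eM B T) with ht
  set a : ℕ → ℝ := fun l => C / ((l + 2 : ℕ) : ℝ) +
    |1 / 2 * κ * (XX (l + 2) + 11 / (12 * Real.pi ^ 2) * Real.log ((l + 2 : ℕ) : ℝ) - x)| +
    |1 / 2 * t * (trace ((rs (Hm (L := l + 2)))⁻¹ * rs (H01 (L := l + 2))) /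
      ((l + 2 : ℕ) : ℝ) ^ 4 - w)| with ha
  have ha0 : Tendsto a atTop (𝓝 0) := by
    have h1 : Tendsto (fun l : ℕ => C / ((l + 2 : ℕ) : ℝ)) atTop (𝓝 0) :=
      (tendsto_const_div_atTop_nhds_zero_nat C).comp (tendsto_add_atTop_nat 2)
    have h2 : Tendsto (fun l : ℕ => |1 / 2 * κ * (XX (l + 2) + 11 / (12 * Real.pi ^ 2) *
        Real.log ((l + 2 : ℕ) : ℝ) - x)|) atTop (𝓝 0) := by
      have h3 := ((hx.sub_const x).const_mul (1 / 2 * κ)).abs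
      simpa using h3
    have h4 : Tendsto (fun l : ℕ => |1 / 2 * t * (trace ((rs (Hm (L := l + 2)))⁻¹ *
        rs (H01 (L := l + 2))) / ((l + 2 : ℕ) : ℝ) ^ 4 - w)|) atTop (𝓝 0) := by
      have h3 := ((hw.sub_const w).const_mul (1 / 2 * t)).abs
      simpa using h3
    have h5 := (h1.add h2).add h4
    rw [add_zero, add_zero] at h5
    exact h5
  refine ⟨fun L => a (L - 2), ha0.comp (tendsto_sub_atTop_nat 2), ?_⟩
  intro L _ hL β hβ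
  obtain ⟨l, rfl⟩ : ∃ l, L = l + 2 := ⟨L - 2, by omega⟩
  have h1 := hC (l + 2) hL β hβ
  show _ ≤ a (l + 2 - 2)
  have h2 : l + 2 - 2 = l := rfl
  rw [h2]
  have hpi : Real.pi ≠ 0 := Real.pi_ne_zero
  have he : invCoupling μ e (l + 2) β - (β * ‖T‖ ^ 2 -
        11 / (24 * Real.pi ^ 2) * κ * Real.log ((l + 2 : ℕ) : ℝ) +
        (1 / 2 * x + 1 / 8 * w) * κ - 1 / 2 * w * ∑ a, ‖B.X a * T‖ ^ 2) =
      (invCoupling μ e (l + 2) β - (β * ‖T‖ ^ 2 + 1 / 2 * (κ * XX (l + 2)) + 1 / 2 *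
        (1 / ((l + 2 : ℕ) : ℝ) ^ 4 * trace ((rs (Hm (L := l + 2)))⁻¹ * rs (H01 (L := l + 2)))) *
        t)) +
      1 / 2 * κ * (XX (l + 2) + 11 / (12 * Real.pi ^ 2) * Real.log ((l + 2 : ℕ) : ℝ) - x) +
      1 / 2 * t * (trace ((rs (Hm (L := l + 2)))⁻¹ * rs (H01 (L := l + 2))) /
        ((l + 2 : ℕ) : ℝ) ^ 4 - w) := by
    have h5 : (11 : ℝ) / (24 * Real.pi ^ 2) = 1 / 2 * (11 / (12 * Real.pi ^ 2)) := by
      field_simp
      norm_num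
    rw [h5, ht, tr_eM B hT]
    ring
  rw [he]
  refine (abs_add_three _ _ _).trans ?_
  simp only [ha]
  gcongr

lemma lie_mem {N n : ℕ} {G : Subgroup (UU N)} (hG : IsClosed (G : Set (UU N)))
    (B : LieBasis G n) {Y : Mt N} (hY : Y ∈ Submodule.span ℝ (Set.range B.X)) :
    ∃ e : ℝ → G, ∀ t, mt (e t) = NormedSpace.exp (t • Y) := by
  have h := Pool.Agent.Y274.YMTan.lie_span hG B.X (fun a t => ⟨B.ex a t, B.ex_eq a t⟩) Y hY
  choose e he using h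
  exact ⟨e, he⟩

theorem unif_of (hgauge : S_GAUGE) (hdiff : S_DIFF) {x w : ℝ} {K : ℕ} (h : FIN x w K) :
    FINU x w K := by
  intro N n G hG _ _ μ _ _ B
  have h1 : ∀ a, ∃ δ : ℕ → ℝ, Tendsto δ atTop (𝓝 0) ∧ ∀ (L : ℕ) [NeZero L], 2 ≤ L → ∀ β : ℝ,
      (L : ℝ) ^ K ≤ β → |VT μ L β (B.X a) - (β * ‖B.X a‖ ^ 2 -
        11 / (24 * Real.pi ^ 2) * kap B (B.X a) * Real.log L + x * kap B (B.X a) -
        w * ∑ c, ‖B.X c * B.X a‖ ^ 2)| ≤ δ L := by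
    intro a
    obtain ⟨δ, h2, h3⟩ := h G hG μ B (B.X a) (B.ex a) (B.ex_eq a)
    refine ⟨δ, h2, fun L _ hL β hβ => ?_⟩
    rw [← inv_eq hgauge hdiff hG μ (B.X a) (B.ex a) (B.ex_eq a) hL β]
    exact h3 L hL β hβ
  have h2 : ∀ a b, ∃ δ : ℕ → ℝ, Tendsto δ atTop (𝓝 0) ∧ ∀ (L : ℕ) [NeZero L], 2 ≤ L → ∀ β : ℝ,
      (L : ℝ) ^ K ≤ β → |VT μ L β (B.X a + B.X b) - (β * ‖B.X a + B.X b‖ ^ 2 -
        11 / (24 * Real.pi ^ 2) * kap B (B.X a + B.X b) * Real.log L +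
        x * kap B (B.X a + B.X b) - w * ∑ c, ‖B.X c * (B.X a + B.X b)‖ ^ 2)| ≤ δ L := by
    intro a b
    obtain ⟨e, he⟩ := lie_mem hG B (Y := B.X a + B.X b)
      (Submodule.add_mem _ (Submodule.subset_span ⟨a, rfl⟩) (Submodule.subset_span ⟨b, rfl⟩))
    obtain ⟨δ, h2, h3⟩ := h G hG μ B (B.X a + B.X b) e he
    refine ⟨δ, h2, fun L _ hL β hβ => ?_⟩
    rw [← inv_eq hgauge hdiff hG μ (B.X a + B.X b) e he hL β]
    exact h3 L hL β hβ
  choose δ1 ht1 hb1 using h1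
  choose δ2 ht2 hb2 using h2
  set δ : ℕ → ℝ := fun L => (∑ a, |δ1 a L|) + ∑ a, ∑ b, |δ2 a b L| with hδ
  have hδ0 : Tendsto δ atTop (𝓝 0) := by
    have e1 : Tendsto (fun L => ∑ a, |δ1 a L|) atTop (𝓝 (∑ a : Fin n, |(0 : ℝ)|)) :=
      tendsto_finsetSum _ fun a _ => (ht1 a).abs
    have e2 : Tendsto (fun L => ∑ a, ∑ b, |δ2 a b L|) atTop
        (𝓝 (∑ a : Fin n, ∑ b : Fin n, |(0 : ℝ)|)) :=
      tendsto_finsetSum _ fun a _ => tendsto_finsetSum _ fun b _ => (ht2 a b).abs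
    have e3 := e1.add e2
    simpa using e3
  have hδ1 : ∀ a L, δ1 a L ≤ δ L := by
    intro a L
    have e1 : |δ1 a L| ≤ ∑ a, |δ1 a L| :=
      Finset.single_le_sum (f := fun a => |δ1 a L|) (fun _ _ => abs_nonneg _) (Finset.mem_univ a)
    have e2 : 0 ≤ ∑ a, ∑ b, |δ2 a b L| :=
      Finset.sum_nonneg fun _ _ => Finset.sum_nonneg fun _ _ => abs_nonneg _
    have e3 := le_abs_self (δ1 a L)
    simp only [hδ]
    linarith
  have hδ2 : ∀ a b L, δ2 a b L ≤ δ L := by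
    intro a b L
    have e1 : |δ2 a b L| ≤ ∑ b, |δ2 a b L| :=
      Finset.single_le_sum (f := fun b => |δ2 a b L|) (fun _ _ => abs_nonneg _)
        (Finset.mem_univ b)
    have e4 : ∑ b, |δ2 a b L| ≤ ∑ a, ∑ b, |δ2 a b L| :=
      Finset.single_le_sum (f := fun a => ∑ b, |δ2 a b L|)
        (fun _ _ => Finset.sum_nonneg fun _ _ => abs_nonneg _) (Finset.mem_univ a)
    have e2 : 0 ≤ ∑ a, |δ1 a L| := Finset.sum_nonneg fun _ _ => abs_nonneg _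
    have e3 := le_abs_self (δ2 a b L)
    simp only [hδ]
    linarith
  refine ⟨fun L => 2 * n * δ L, by simpa using hδ0.const_mul (2 * (n : ℝ)), ?_⟩
  intro T e he L _ hL β hβ
  have hT : T ∈ Submodule.span ℝ (Set.range B.X) := T_mem B he
  rw [inv_eq hgauge hdiff hG μ T e he hL β]
  set t : Fin n → ℝ := fun a => (trace ((B.X a)ᴴ * T)).re with htt
  have hTt : T = lc B t := expand B hT
  have hn : ‖T‖ ^ 2 = ∑ a, t a ^ 2 := frob_span B hT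
  set q : (Fin n → ℝ) → ℝ := fun s => VT μ L β (lc B s) - (β * ‖lc B s‖ ^ 2 -
        11 / (24 * Real.pi ^ 2) * kap B (lc B s) * Real.log L + x * kap B (lc B s) -
        w * ∑ c, ‖B.X c * lc B s‖ ^ 2) with hq
  have hQ : IsQ q := by
    have q1 := VT_lc (L := L) hG μ B β
    have q2 := norm_lc B (LinearMap.id : Mt N →ₗ[ℝ] Mt N)
    have q3 : IsQ fun s => kap B (lc B s) := by
      have : ∀ a, IsQ fun s => ‖lc B s * B.X a - B.X a * lc B s‖ ^ 2 := fun a =>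
        norm_lc B ((LinearMap.mulRight ℝ (B.X a)) - LinearMap.mulLeft ℝ (B.X a))
      exact IsQ.sum _ fun a _ => this a
    have q4 : IsQ fun s => ∑ c, ‖B.X c * lc B s‖ ^ 2 :=
      IsQ.sum _ fun a _ => norm_lc B (LinearMap.mulLeft ℝ (B.X a))
    have q5 := q1.sub ((((q2.smul β).sub (q3.smul (11 / (24 * Real.pi ^ 2) * Real.log L))).add
      (q3.smul x)).sub (q4.smul w))
    obtain ⟨m, hm⟩ := q5
    refine ⟨m, fun s => ?_⟩
    rw [← hm]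
    simp only [hq, LinearMap.id_apply]
    ring
  have hfin := hQ.bound (δ := δ L) (by
    intro a
    simp only [hq, lc_single]
    exact (hb1 a L hL β hβ).trans (hδ1 a L)) (by
    intro a b
    simp only [hq, lc_add, lc_single]
    exact (hb2 a b L hL β hβ).trans (hδ2 a b L)) t
  simp only [hq] at hfin
  rw [← hTt, ← hn] at hfin
  exact hfin

end Pool.Agent.Y16.AF
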