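import Mathlib
import Pool.Agent.Y16.AF.StmB

/-! Statements for project AF, third part. -/

open MeasureTheory Matrix Filter
open scoped Matrix.Norms.Frobenius Topology
open Pool.Agent.Y16.Gluon

namespace Pool.Agent.Y16.AF

/-- The value of the limit of the fluctuation: by the symmetry of the four dimensional torus the
planes of the lattice have equal shares, `3 / 6`. -/
def C_WH : Prop :=
  Tendsto (fun L : ℕ => trace ((rs (Hm (L := L + 2)))⁻¹ * rs (H01 (L := L + 2))) /
    ((L + 2 : ℕ) : ℝ) ^ 4) atTop (𝓝 (1 / 2))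

def S_WH : Prop := C_WF → S_EN → C_SUMS → C_WH

/-- For a simple Lie algebra the second invariant form is proportional to the norm. -/
def S_SIMQ : Prop :=
  ∀ {N n : ℕ} (G : Subgroup (UU N)) (B : LieBasis G n), 0 < n →
    (∀ W : Submodule ℝ (Mt N), W ≤ Submodule.span ℝ (Set.range B.X) →
      (∀ a, ∀ Y ∈ W, B.X a * Y - Y * B.X a ∈ W) →
      W = ⊥ ∨ W = Submodule.span ℝ (Set.range B.X)) →
    ∀ T ∈ Submodule.span ℝ (Set.range B.X),
      (∑ a, ‖B.X a * T‖ ^ 2) =
        (1 / (n : ℝ) * ∑ a, ∑ b, ‖B.X a * B.X b‖ ^ 2) * ‖T‖ ^ 2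

end Pool.Agent.Y16.AF
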