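import Mathlib
import Pool.Agent.Y16.AF.Main
import Pool.Agent.Y16.AF.StmC
import Pool.Agent.Y16.AF.Prob9
import Pool.Agent.Y758.AF.Tan
import Pool.Agent.Y155.AF.Rs
import Pool.Agent.Y893.AF.Z3L
import Pool.Agent.Y604.AF.Spr2
import Pool.Agent.Y604.AF.Spy2
import Pool.Agent.Y37.AF.Spw2
import Pool.Agent.Y469.AF.Vl
import Pool.Agent.Y379.AF.YL
import Pool.Agent.Y98.AF.L1
import Pool.Agent.Y983.AF.L2
import Pool.Agent.Y681.AF.L3
import Pool.Agent.Y901.AF.L4D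
import Pool.Agent.Y61.AF.L4N
import Pool.Agent.Y445.AF.Asyl
import Pool.Agent.Y407.AF.K0L
import Pool.Agent.Y344.AF.Pos0
import Pool.Agent.Y564.AF.Sym0
import Pool.Agent.Y658.AF.K00
import Pool.Agent.Y809.AF.Wf
import Pool.Agent.Y710.AF.Wh
import Pool.Agent.Y514.AF.Simp
import Pool.Agent.Y954.AF.Simq

/-! # Assembly of the sharp form. -/

open MeasureTheory Matrix Filter
open scoped Matrix.Norms.Frobenius Topology
open Pool.Agent.Y16.Gluon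

namespace Pool.Agent.Y16.AF

theorem c_l1 : C_L1 := Pool.Agent.Y98.AF.af_l1 c_en Pool.Agent.Y604.AF.af_spr2
  Pool.Agent.Y469.AF.af_vl Pool.Agent.Y155.AF.af_rs Pool.Agent.Y893.AF.af_z3l
  Pool.Agent.Y758.AF.af_tan

theorem c_l2 : C_L2 := Pool.Agent.Y983.AF.af_l2 c_en Pool.Agent.Y604.AF.af_spy2
  Pool.Agent.Y379.AF.af_yl Pool.Agent.Y155.AF.af_rs Pool.Agent.Y893.AF.af_z3l
  Pool.Agent.Y758.AF.af_tan

theorem c_l3 : C_L3 := Pool.Agent.Y681.AF.af_l3 c_en c_sums Pool.Agent.Y37.AF.af_spw2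
  Pool.Agent.Y155.AF.af_rs

theorem c_l4d : C_L4D := Pool.Agent.Y901.AF.af_l4d Pool.Agent.Y48.AF.af_trig
  Pool.Agent.Y427.AF.af_spec c_en

theorem c_l4n : C_L4N := Pool.Agent.Y61.AF.af_l4n Pool.Agent.Y48.AF.af_trig
  Pool.Agent.Y427.AF.af_spec c_en

theorem c_asyl : C_ASYL := Pool.Agent.Y445.AF.af_asyl c_l1 c_l2 c_l3 c_l4d c_l4n

theorem c_coefl : C_COEFL := coefl c_ld2 c_pos c_sym c_blk c_k0
  (Pool.Agent.Y407.AF.af_k0l c_ld2) c_hpd c_lnk c_en c_asyl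

theorem c_wf : C_WF := Pool.Agent.Y809.AF.af_wf
  (Pool.Agent.Y344.AF.af_pos0 Pool.Agent.Y721.AF.af_fp Pool.Agent.Y100.AF.af_four)
  (Pool.Agent.Y564.AF.af_sym0 Pool.Agent.Y721.AF.af_fp) Pool.Agent.Y658.AF.af_k00 c_hpd c_en

theorem c_wh : C_WH := Pool.Agent.Y710.AF.af_wh c_wf c_en c_sums

/-- The sharp form, uniformly in the background field. -/
theorem sharp : ∃ (x : ℝ) (K : ℕ), FINU x (1 / 4) K := by
  obtain ⟨K, hcore⟩ := core_of Pool.Agent.Y781.AF.af_gauge Pool.Agent.Y515.AF.af_diff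
    Pool.Agent.Y614.AF.af_ball Pool.Agent.Y352.AF.af_coer Pool.Agent.Y421.AF.af_mom
    Pool.Agent.Y500.AF.af_tay1 Pool.Agent.Y454.AF.af_tay2 Pool.Agent.Y349.AF.af_tayg
    Pool.Agent.Y929.AF.af_ibp Pool.Agent.Y220.AF.af_abs c_hpd
  obtain ⟨x, hx⟩ := c_coefl
  refine ⟨1 / 2 * x + 1 / 8 * (1 / 2), K, ?_⟩
  rw [show (1 / 4 : ℝ) = 1 / 2 * (1 / 2) by norm_num]
  exact unif_of Pool.Agent.Y781.AF.af_gauge Pool.Agent.Y515.AF.af_diff (fin_of hcore hx c_wh)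

end Pool.Agent.Y16.AF
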