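import Mathlib
import Pool.Agent.Y16.AF.Top
import Pool.Agent.Y16.AF.StmD
import Pool.Agent.Y721.AF.Sun
import Pool.Agent.TH618.YM.Cartan

open MeasureTheory Matrix Filter
open scoped Matrix.Norms.Frobenius Topology
open Pool.Agent.Y16.Gluon

namespace Pool.Agent.Y16.AF

/-- `Y` is in the Lie algebra of `G`. -/
def IsLie {N : ℕ} (G : Subgroup (UU N)) (Y : Mt N) : Prop :=
  ∀ t : ℝ, ∃ g : G, mt g = NormedSpace.exp (t • Y)

/-- `X` is an orthonormal basis of the Lie algebra of `G`. -/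
def IsBasis {N n : ℕ} (G : Subgroup (UU N)) (X : Fin n → Mt N) : Prop :=
  (∀ a b, (trace ((X a)ᴴ * X b)).re = if a = b then 1 else 0) ∧
    ∀ Y, IsLie G Y ↔ Y ∈ Submodule.span ℝ (Set.range X)

/-- The Lie algebra of `G` is simple. -/
def IsSimple {N : ℕ} (G : Subgroup (UU N)) : Prop :=
  (∃ Y Z, IsLie G Y ∧ IsLie G Z ∧ Y * Z ≠ Z * Y) ∧
    ∀ W : Submodule ℝ (Mt N), (∀ Y ∈ W, IsLie G Y) →
      (∀ Y ∈ W, ∀ Z, IsLie G Z → Z * Y - Y * Z ∈ W) → W = ⊥ ∨ ∀ Y, IsLie G Y → Y ∈ W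

/-- The running. -/
def Runs {N : ℕ} (G : Subgroup (UU N)) [MeasurableSpace G] (μ : Measure G) (K : ℕ)
    (m : Mt N → ℝ → ℕ → ℝ) : Prop :=
  ∃ δ : ℕ → ℝ, Tendsto δ atTop (𝓝 0) ∧ ∀ (T : Mt N) (e : ℝ → G),
    (∀ t, mt (e t) = NormedSpace.exp (t • T)) → ∀ (L : ℕ) [NeZero L], 2 ≤ L → ∀ β : ℝ,
      (L : ℝ) ^ K ≤ β → |invCoupling μ e L β - m T β L| ≤ δ L * ‖T‖ ^ 2

lemma lie_iff {N n : ℕ} {G : Subgroup (UU N)} (hG : IsClosed (G : Set (UU N)))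
    (B : LieBasis G n) (Y : Mt N) : IsLie G Y ↔ Y ∈ Submodule.span ℝ (Set.range B.X) := by
  refine ⟨B.full Y, fun hY => ?_⟩
  obtain ⟨e, he⟩ := lie_mem hG B hY
  exact fun t => ⟨e t, he t⟩

lemma exists_lieBasis {N : ℕ} {G : Subgroup (UU N)} (hG : IsClosed (G : Set (UU N))) :
    ∃ n, Nonempty (LieBasis G n) := by
  obtain ⟨n, ⟨F⟩⟩ := Pool.Agent.TH618.YM.exists_frame hG
  exact ⟨n, ⟨⟨F.X, F.ex, F.ex_eq, F.orth, F.full⟩⟩⟩

theorem final_of (hsun : S_SUN) : ∃ (x : ℝ) (K : ℕ), ∀ {N : ℕ} (G : Subgroup (UU N))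
    (_ : IsClosed (G : Set (UU N))) [MeasurableSpace G] [BorelSpace G] (μ : Measure G)
    [IsProbabilityMeasure μ] [μ.IsHaarMeasure],
    (∀ {n : ℕ} (X : Fin n → Mt N), IsBasis G X → Runs G μ K fun T β L =>
      β * ‖T‖ ^ 2 - 11 / (24 * Real.pi ^ 2) * (∑ a, ‖T * X a - X a * T‖ ^ 2) * Real.log L +
        x * (∑ a, ‖T * X a - X a * T‖ ^ 2) - 1 / 4 * ∑ a, ‖X a * T‖ ^ 2) ∧
    (IsSimple G → ∃ c f : ℝ, 0 < c ∧ Runs G μ K fun T β L =>
      ‖T‖ ^ 2 * (β - 11 / (24 * Real.pi ^ 2) * c * Real.log L + x * c - 1 / 4 * f)) ∧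
    ((∀ U : UU N, U ∈ G ↔ det (U : Mt N) = 1) → Runs G μ K fun T β L =>
      ‖T‖ ^ 2 * (β - 11 * N / (12 * Real.pi ^ 2) * Real.log L + 2 * N * x -
        1 / 4 * (N - 1 / N))) := by
  obtain ⟨x, K, h⟩ := sharp
  refine ⟨x, K, ?_⟩
  intro N G hG _ _ μ _ _
  refine ⟨?_, ?_, ?_⟩
  · intro n X hX
    have hX2 : ∀ a, IsLie G (X a) := fun a => (hX.2 (X a)).2 (Submodule.subset_span ⟨a, rfl⟩)
    choose ex hex using hX2
    let B : LieBasis G n := ⟨X, ex, hex, hX.1, fun Y hY => (hX.2 Y).1 hY⟩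
    obtain ⟨δ, hδ, hb⟩ := h G hG μ B
    exact ⟨δ, hδ, fun T e he L _ hL β hβ => hb T e he L hL β hβ⟩
  · rintro ⟨⟨Y, Z, hY, hZ, hYZ⟩, hW⟩
    obtain ⟨n, ⟨B⟩⟩ := exists_lieBasis hG
    have hcomm : ∃ a b, B.X a * B.X b ≠ B.X b * B.X a := by
      by_contra hcon
      push Not at hcon
      apply hYZ
      have e1 := expand B ((lie_iff hG B Y).1 hY)
      have e2 := expand B ((lie_iff hG B Z).1 hZ)
      rw [e1, e2, Finset.sum_mul_sum, Finset.sum_mul_sum, Finset.sum_comm]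
      refine Finset.sum_congr rfl fun a _ => Finset.sum_congr rfl fun b _ => ?_
      rw [smul_mul_smul_comm, smul_mul_smul_comm, hcon b a, mul_comm]
    obtain ⟨a0, b0, hab⟩ := hcomm
    have hn : 0 < n := Fin.pos a0
    have hn' : (0 : ℝ) < n := by exact_mod_cast hn
    have hsimp : ∀ W : Submodule ℝ (Mt N), W ≤ Submodule.span ℝ (Set.range B.X) →
        (∀ a, ∀ Y ∈ W, B.X a * Y - Y * B.X a ∈ W) →
        W = ⊥ ∨ W = Submodule.span ℝ (Set.range B.X) := by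
      intro W hW1 hW2
      rcases hW W (fun Y hY => (lie_iff hG B Y).2 (hW1 hY)) (fun Y hY Z hZ => by
        rw [expand B ((lie_iff hG B Z).1 hZ), Finset.sum_mul, Finset.mul_sum,
          ← Finset.sum_sub_distrib]
        refine Submodule.sum_mem _ fun a _ => ?_
        rw [smul_mul_assoc, mul_smul_comm, ← smul_sub]
        exact Submodule.smul_mem _ _ (hW2 a Y hY)) with h1 | h1
      · exact Or.inl h1
      · exact Or.inr (le_antisymm hW1 fun Y hY => h1 Y ((lie_iff hG B Y).2 hY))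
    refine ⟨1 / (n : ℝ) * ∑ a, ∑ b, ‖B.X a * B.X b - B.X b * B.X a‖ ^ 2,
      1 / (n : ℝ) * ∑ a, ∑ b, ‖B.X a * B.X b‖ ^ 2, ?_, ?_⟩
    · refine mul_pos (by positivity) ?_
      refine Finset.sum_pos' (fun a _ => Finset.sum_nonneg fun b _ => sq_nonneg _)
        ⟨a0, Finset.mem_univ _, ?_⟩
      refine Finset.sum_pos' (fun b _ => sq_nonneg _) ⟨b0, Finset.mem_univ _, ?_⟩
      have : 0 < ‖B.X a0 * B.X b0 - B.X b0 * B.X a0‖ := norm_pos_iff.2 (sub_ne_zero.2 hab)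
      positivity
    · obtain ⟨δ, hδ, hb⟩ := h G hG μ B
      refine ⟨δ, hδ, fun T e he L _ hL β hβ => ?_⟩
      have hT : T ∈ Submodule.span ℝ (Set.range B.X) := T_mem B he
      have h1 := hb T e he L hL β hβ
      have h2 : kap B T = _ := Pool.Agent.Y514.AF.af_simp G B hn hsimp T hT
      have h3 := Pool.Agent.Y954.AF.af_simq G B hn hsimp T hT
      rw [h2, h3] at h1
      refine le_trans (le_of_eq ?_) h1
      congr 1
      ring
  · intro hSU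
    obtain ⟨n, ⟨B⟩⟩ := exists_lieBasis hG
    obtain ⟨δ, hδ, hb⟩ := h G hG μ B
    refine ⟨δ, hδ, fun T e he L _ hL β hβ => ?_⟩
    have hT : T ∈ Submodule.span ℝ (Set.range B.X) := T_mem B he
    have h1 := hb T e he L hL β hβ
    have h2 : kap B T = 2 * N * ‖T‖ ^ 2 ∧
        (∑ a, ‖B.X a * T‖ ^ 2) = ((N : ℝ) - 1 / N) * ‖T‖ ^ 2 := by
      rcases Nat.eq_zero_or_pos N with hN | hN
      · subst hN
        have hT0 : T = 0 := Subsingleton.elim _ _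
        subst hT0
        simp [kap]
      · exact hsun G B hN hSU T hT
    rw [h2.1, h2.2] at h1
    refine le_trans (le_of_eq ?_) h1
    congr 1
    have hpi : Real.pi ≠ 0 := Real.pi_ne_zero
    have h5 : (11 : ℝ) * N / (12 * Real.pi ^ 2) = 11 / (24 * Real.pi ^ 2) * (2 * N) := by
      ring
    rw [h5]
    ring

/-- **Asymptotic freedom.** -/
theorem final : ∃ (x : ℝ) (K : ℕ), ∀ {N : ℕ} (G : Subgroup (UU N))
    (_ : IsClosed (G : Set (UU N))) [MeasurableSpace G] [BorelSpace G] (μ : Measure G)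
    [IsProbabilityMeasure μ] [μ.IsHaarMeasure],
    (∀ {n : ℕ} (X : Fin n → Mt N), IsBasis G X → Runs G μ K fun T β L =>
      β * ‖T‖ ^ 2 - 11 / (24 * Real.pi ^ 2) * (∑ a, ‖T * X a - X a * T‖ ^ 2) * Real.log L +
        x * (∑ a, ‖T * X a - X a * T‖ ^ 2) - 1 / 4 * ∑ a, ‖X a * T‖ ^ 2) ∧
    (IsSimple G → ∃ c f : ℝ, 0 < c ∧ Runs G μ K fun T β L =>
      ‖T‖ ^ 2 * (β - 11 / (24 * Real.pi ^ 2) * c * Real.log L + x * c - 1 / 4 * f)) ∧
    ((∀ U : UU N, U ∈ G ↔ det (U : Mt N) = 1) → Runs G μ K fun T β L =>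
      ‖T‖ ^ 2 * (β - 11 * N / (12 * Real.pi ^ 2) * Real.log L + 2 * N * x -
        1 / 4 * (N - 1 / N))) :=
  final_of Pool.Agent.Y721.AF.Sun.af_sun

end Pool.Agent.Y16.AF
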